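import Pool.Agent.U222.GT.Rho
import Pool.Agent.H485R3.Kron

/-!
# Integrality of the quotients
-/

set_option autoImplicit false

namespace Pool.Agent.U222.GT

open Finset Polynomial Pool.Agent.N876.TC Pool.Agent.N876.UV Pool.Agent.U222.SL
  Pool.Agent.W528.HA Pool.Agent.W528.HB

variable {c : ℕ} [Fact c.Prime]

/-- integrality from the absolute values above `c` -/
theorem integral_of {q f : ℕ} (hq : q = c ^ f) {β : AA} (hβ : IsIntegral ℤ β) (ν : ℕ)
    (h : ∀ φ : AA →+* PadicAlgCl c, ‖φ β‖ ≤ ‖((q : ℕ) : PadicAlgCl c)‖ ^ ν) :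
    IsIntegral ℤ (β / (q : AA) ^ ν) := by
  apply Pool.Agent.H485R3.isIntegral_of_norm_le
  intro l _ e
  have hq0 : ((q : ℕ) : PadicAlgCl l) ≠ 0 := by
    rw [hq]
    exact_mod_cast pow_ne_zero f (Fact.out : c.Prime).ne_zero
  have hpos : 0 < ‖((q : ℕ) : PadicAlgCl l)‖ ^ ν := pow_pos (norm_pos_iff.2 hq0) ν
  have h1 : ‖e (β / (q : AA) ^ ν)‖ = ‖e β‖ / ‖((q : ℕ) : PadicAlgCl l)‖ ^ ν := by
    rw [map_div₀, map_pow, map_natCast, norm_div, norm_pow]
  rw [h1, div_le_one hpos]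
  by_cases hlc : l = c
  · subst hlc
    exact h (e : AA →+* PadicAlgCl l)
  · have h2 : ‖((q : ℕ) : PadicAlgCl l)‖ = 1 := by
      rw [hq]
      push_cast
      rw [norm_pow]
      have h3 : ‖((c : ℕ) : PadicAlgCl l)‖ = 1 := by
        have h4 : ((c : ℕ) : PadicAlgCl l) = algebraMap ℚ_[l] (PadicAlgCl l) ((c : ℕ) : ℚ_[l]) := by
          rw [map_natCast]
        rw [h4, PadicAlgCl.norm_extends, Padic.norm_natCast_eq_one_iff]
        exact (Nat.coprime_primes (Fact.out : l.Prime) (Fact.out : c.Prime)).2 hlc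
      rw [h3, one_pow]
    rw [h2, one_pow]
    exact norm_int_le (hβ.map (e : AA →+* PadicAlgCl l).toIntAlgHom)

section

variable {ι : Type} [Fintype ι] {d n s : ι → ℕ}
    (κ : Type) [Field κ] [Fintype κ] [CharP κ c] {f : ℕ}
    (hf : Fintype.card κ = c ^ f) {z : ι → κ} (hz : ∀ i, IsPrimitiveRoot (z i) (d i))
    (l : ∀ i, Fin (s i) → Fin (n i + 1) → κ) (a : ∀ i, Fin (s i) → ℕ)
    (ha : ∀ i k, (a i k).Coprime (d i))
    {W : ι → Type} [∀ i, AddCommGroup (W i)] [∀ i, Module ℂ (W i)]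
    [∀ i, FiniteDimensional ℂ (W i)] {Φ g : ∀ i, Module.End ℂ (W i)}
    (h : ∀ i, IsCov (d i) (l i) (a i) (z i) (Φ i) (g i))

include hf hz ha h

/-- **The quotient is an algebraic integer.** -/
theorem integral_quot (hp : ∀ i, (d i).Prime) (hne : ∀ i i', i ≠ i' → d i ≠ d i')
    (hc : ∀ i, c % d i = 1 % d i) (hsum : ∀ i, ∑ k, a i k = d i) {m : ℕ}
    (hk : ∀ i, ∃ k0, 2 ≤ d i - a i k0 ∧ 4 * (d i - a i k0) ^ 2 * (m + 1) ^ 2 ≤ d i)
    {I : Finset ι} {α : ι → ℂ} (hα : ∀ i ∈ I, (Φ i).HasEigenvalue (α i))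
    (hpure : ∀ i ∈ I, ‖α i‖ ^ 2 = (Fintype.card κ : ℝ) ^ n i) {β : ℂ} (hβ : IsIntegral ℤ β)
    (hβm : (minpoly ℚ β).natDegree ≤ m) {ν : ℕ}
    (hint : IsIntegral ℤ ((∏ i ∈ I, α i) * β / (Fintype.card κ : ℂ) ^ ν)) :
    IsIntegral ℤ (β / (Fintype.card κ : ℂ) ^ ν) := by
  classical
  have hq : 1 < Fintype.card κ := Fintype.one_lt_card
  have hq1 : (1 : ℝ) < Fintype.card κ := by exact_mod_cast hq
  have hq0 : (0 : ℝ) < Fintype.card κ := by linarith
  have hα0 : ∀ i ∈ I, α i ≠ 0 := by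
    intro i hi h0
    have h1 := hpure i hi
    rw [h0, norm_zero, zero_pow two_ne_zero] at h1
    exact (pow_pos hq0 (n i)).ne h1
  have hd2 : ∀ i, 2 ≤ d i := fun i => (hp i).two_le
  have hfact : ∀ i, Fact (d i).Prime := fun i => ⟨hp i⟩
  -- the residue field
  obtain ⟨k, _, R, res, _, _, hR⟩ := Pool.Agent.W999.HB.TP.main c
  have _ : Algebra (ZMod c) κ := ZMod.algebra κ c
  have _ : Algebra (ZMod c) k := ZMod.algebra k c
  have hκk : Nonempty (κ →ₐ[ZMod c] k) := ⟨IsAlgClosed.lift⟩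
  obtain ⟨eκ'⟩ := hκk
  set eκ : κ →+* k := (eκ' : κ →+* k)
  have hOm : ∀ i, ∃ Ω : PadicAlgCl c, IsPrimitiveRoot Ω (d i) ∧
      ∃ h : Ω ∈ R, res ⟨Ω, h⟩ = eκ (z i) := fun i => exists_Om (hd2 i) hf (hz i) hR eκ
  choose Ω hΩ hΩz using hOm
  have hcs := fun (i : ι) (hi : i ∈ I) => cov_slope (hd2 i) κ hf (hz i) hR eκ (hΩ i) (hΩz i) (l i)
    (a i) (ha i) (h i) (hα i hi) (hα0 i hi)
  choose hx μ hμ1 hμ2 hμ3 using hcs
  have hβA : β ∈ AA := mem_algebraicClosure_iff.mpr (hβ.tower_top (A := ℚ)).isAlgebraic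
  have hβ' : IsIntegral ℤ (⟨β, hβA⟩ : AA) := by
    have h1 : IsIntegral ℤ (algebraMap AA ℂ ⟨β, hβA⟩) := hβ
    exact (isIntegral_algebraMap_iff (algebraMap AA ℂ).injective).1 h1
  have hβd : (minpoly ℚ (⟨β, hβA⟩ : AA)).natDegree ≤ m := by
    rw [← minpoly.algebraMap_eq (algebraMap AA ℂ).injective (⟨β, hβA⟩ : AA)]
    exact hβm
  have hgoal : IsIntegral ℤ ((⟨β, hβA⟩ : AA) / ((Fintype.card κ : ℕ) : AA) ^ ν) := by
    refine integral_of hf hβ' ν fun φ => ?_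
    set Q := ‖((Fintype.card κ : ℕ) : PadicAlgCl c)‖ with hQ
    have hQ0 : 0 < Q := norm_card_pos (c := c) (L := κ)
    have hQ1 : Q < 1 := norm_card_lt (c := c) (L := κ)
    set rc := ‖((c : ℕ) : PadicAlgCl c)‖ with hrc
    have hrc0 : 0 < rc := norm_c_pos
    have hrc1 : rc < 1 := norm_c_lt
    have hQrc : Q = rc ^ f := by
      rw [hQ, hf]
      push_cast
      rw [norm_pow]
    -- the exponents
    have hj : ∀ i (hi : i ∈ I), ∃ j : ℕ, ¬ d i ∣ j ∧ φ (μ i hi) = Ω i ^ j := by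
      intro i hi
      have : NeZero (d i) := ⟨by have := hd2 i; omega⟩
      obtain ⟨j, _, hj⟩ := (hΩ i).eq_pow_of_pow_eq_one (ξ := φ (μ i hi))
        (by rw [← map_pow, hμ1, map_one])
      refine ⟨j, ?_, hj.symm⟩
      intro h0
      apply hμ2 i hi
      apply φ.injective
      rw [← hj, map_one]
      exact ((hΩ i).pow_eq_one_iff_dvd j).mpr h0
    choose j0 hj0 hj1 using hj
    -- the roots of unity
    have hζ : ∀ i, ∃ ζ : AA, IsPrimitiveRoot ζ (d i) := fun i => by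
      have : NeZero (((d i : ℕ)) : AA) := ⟨by exact_mod_cast (hp i).ne_zero⟩
      exact HasEnoughRootsOfUnity.exists_primitiveRoot AA _
    choose ζ hζ using hζ
    choose k0 hk1 hk2 using hk
    have hju : ∀ i, ∃ t : (ZMod (d i))ˣ, ∀ hi : i ∈ I, (t : ZMod (d i)) = -(j0 i hi : ZMod (d i)) := by
      intro i
      by_cases hi : i ∈ I
      · have h1 : (j0 i hi : ZMod (d i)) ≠ 0 := by
          intro h0
          exact hj0 i hi ((ZMod.natCast_eq_zero_iff _ _).1 h0)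
        exact ⟨Units.mk0 (-(j0 i hi : ZMod (d i))) (neg_ne_zero.2 h1), fun _ => rfl⟩
      · exact ⟨1, fun h => absurd h hi⟩
    choose t ht using hju
    obtain ⟨ρ, hρβ, hρ⟩ := exists_rho hζ hne (fun i => d i - a i (k0 i))
      (fun i => by have := hk1 i; omega) hk2 hβd t
    choose v r hv hr0 hr1 hvr using hρ
    set A : AA := ∏ i ∈ I.attach, (⟨α i.1, hx i.1 i.2⟩ : AA) with hAdef
    set S := ∑ i ∈ I, n i with hS
    have hcj : A * cj A = ((Fintype.card κ : ℕ) : AA) ^ S := by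
      rw [hAdef, map_prod, ← prod_mul_distrib, hS, ← prod_pow_eq_pow_sum,
        ← prod_attach I (fun i => ((Fintype.card κ : ℕ) : AA) ^ n i)]
      refine prod_congr rfl fun i _ => ?_
      apply Subtype.ext
      push_cast
      show α i.1 * starRingEnd ℂ (α i.1) = _
      rw [Complex.mul_conj, Complex.normSq_eq_norm_sq, hpure i.1 i.2]
      push_cast
      rfl
    -- the conjugate is small
    have hlow : ‖φ ((cjE.trans ρ) A)‖ ≤ Q ^ S := by
      have h1 : ‖φ ((cjE.trans ρ) A)‖ =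
          ∏ i ∈ I.attach, ‖φ ((cjE.trans ρ) ⟨α i.1, hx i.1 i.2⟩)‖ := by
        rw [hAdef, map_prod, map_prod, norm_prod]
      rw [h1, hS, ← prod_pow_eq_pow_sum, ← prod_attach I (fun i => Q ^ n i)]
      refine prod_le_prod (fun i _ => norm_nonneg _) fun i _ => ?_
      obtain ⟨i, hi⟩ := i
      show ‖φ ((cjE.trans ρ) ⟨α i, hx i hi⟩)‖ ≤ Q ^ n i
      have hdi : 0 < d i := (hp i).pos
      -- the root of unity
      have : NeZero (d i) := ⟨hdi.ne'⟩
      obtain ⟨w, _, hw⟩ := (hζ i).eq_pow_of_pow_eq_one (hμ1 i hi)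
      have h2 : φ ((cjE.trans ρ) (μ i hi)) = Ω i ^ (j0 i hi * ((d i - 1) * v i)) := by
        have h3 : (cjE.trans ρ) (μ i hi) = μ i hi ^ ((d i - 1) * v i) := by
          show ρ (cj (μ i hi)) = _
          rw [← hw, map_pow, cj_root hdi (hζ i), map_pow, map_pow, hv i]
          ring
        rw [h3, map_pow, hj1, ← pow_mul]
      set x := j0 i hi * ((d i - 1) * v i) with hxdef
      have hxr : x ≡ r i [MOD d i] := by
        rw [← ZMod.natCast_eq_natCast_iff, ← hvr i, ht i hi, hxdef]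
        rw [Nat.cast_mul, Nat.cast_mul, Nat.cast_sub hdi, ZMod.natCast_self, Nat.cast_one]
        ring
      have hri : r i < d i := by
        have h3 := hk1 i
        calc r i ≤ (d i - a i (k0 i)) * r i := Nat.le_mul_of_pos_left _ (by omega)
          _ < d i := hr1 i
      have hnd : ¬ d i ∣ x := by
        intro h0
        have h3 : r i ≡ 0 [MOD d i] := hxr.symm.trans ((Nat.modEq_zero_iff_dvd).2 h0)
        have h4 := Nat.le_of_dvd (hr0 i) ((Nat.modEq_zero_iff_dvd).1 h3)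
        omega
      have h3 := hμ3 i hi (φ.comp (((cjE.trans ρ : AA ≃ₐ[ℚ] AA) : AA ≃+* AA) : AA →+* AA)) x hnd h2
      have h4 := resid' (c := c) (f := f) hdi (hc i) (hsum i) (k0 := k0 i)
        (by have := hk1 i; omega) (hr0 i) (by rw [mul_comm]; exact hr1 i) hxr
      rw [h4] at h3
      have h5 : ‖φ ((cjE.trans ρ) ⟨α i, hx i hi⟩)‖ ^ d i * rc ^ (f * d i) ≤
          rc ^ (f * n i * d i) * rc ^ (f * d i) := by
        rw [← pow_add]
        have h6 : f * n i * d i + f * d i = f * (n i + 1) * d i := by ring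
        rw [h6]
        exact h3
      have h6 := le_of_mul_le_mul_right h5 (pow_pos hrc0 _)
      rw [pow_mul, pow_mul, ← hQrc] at h6
      exact (pow_le_pow_iff_left₀ (norm_nonneg _) (pow_nonneg hQ0.le _) hdi.ne').1 h6
    have h1 := cj_aut φ hcj ρ
    have hA1 : 1 ≤ ‖φ (ρ A)‖ := by
      by_contra hcon
      push Not at hcon
      have h2 : ‖φ (ρ A)‖ * ‖φ ((cjE.trans ρ) A)‖ < Q ^ S := by
        rcases (norm_nonneg (φ ((cjE.trans ρ) A))).lt_or_eq with h3 | h3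
        · calc _ < 1 * ‖φ ((cjE.trans ρ) A)‖ := mul_lt_mul_of_pos_right hcon h3
            _ ≤ Q ^ S := by rw [one_mul]; exact hlow
        · rw [← h3, mul_zero]
          exact pow_pos hQ0 S
      exact absurd h1 h2.ne
    have hyint : IsIntegral ℤ (A * ⟨β, hβA⟩ / ((Fintype.card κ : ℕ) : AA) ^ ν) := by
      have h2 : IsIntegral ℤ (algebraMap AA ℂ
          (A * ⟨β, hβA⟩ / ((Fintype.card κ : ℕ) : AA) ^ ν)) := by
        have h3 : algebraMap AA ℂ (A * ⟨β, hβA⟩ / ((Fintype.card κ : ℕ) : AA) ^ ν) =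
            (∏ i ∈ I, α i) * β / (Fintype.card κ : ℂ) ^ ν := by
          rw [map_div₀, map_mul, map_pow, map_natCast, hAdef, map_prod, ← prod_attach I]
          rfl
        rw [h3]
        exact hint
      exact (isIntegral_algebraMap_iff (algebraMap AA ℂ).injective).1 h2
    have h2 : ‖φ (ρ (A * ⟨β, hβA⟩ / ((Fintype.card κ : ℕ) : AA) ^ ν))‖ ≤ 1 :=
      norm_int_le (hyint.map (φ.comp ((ρ : AA ≃+* AA) : AA →+* AA)).toIntAlgHom)
    rw [map_div₀, map_mul, map_pow, map_natCast, hρβ, map_div₀, map_mul, map_pow, map_natCast,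
      norm_div, norm_mul, norm_pow, div_le_one (pow_pos hQ0 ν)] at h2
    calc ‖φ ⟨β, hβA⟩‖ = 1 * ‖φ ⟨β, hβA⟩‖ := (one_mul _).symm
      _ ≤ ‖φ (ρ A)‖ * ‖φ ⟨β, hβA⟩‖ := mul_le_mul_of_nonneg_right hA1 (norm_nonneg _)
      _ ≤ Q ^ ν := h2
  have h3 := hgoal.map (algebraMap AA ℂ).toIntAlgHom
  have h4 : (algebraMap AA ℂ).toIntAlgHom ((⟨β, hβA⟩ : AA) / ((Fintype.card κ : ℕ) : AA) ^ ν) =
      β / (Fintype.card κ : ℂ) ^ ν := by
    show algebraMap AA ℂ _ = _
    rw [map_div₀, map_pow, map_natCast]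
    rfl
  rwa [h4] at h3

end

end Pool.Agent.U222.GT
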