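import Mathlib

/-!
# The bilinear bound for character sums over sums
-/

set_option autoImplicit false

open Finset

namespace Pool.Agent.U222.GT

variable {N : ℕ} [Fact N.Prime]

/-- the correlation of a character with its shifts -/
theorem corr_shift (χ : MulChar (ZMod N) ℂ) (hχ : χ ≠ 1) {d : ZMod N} (hd : d ≠ 0) :
    ∑ z : ZMod N, χ (z + d) * χ⁻¹ z = -1 := by
  have h1 := jacobiSum_nontrivial_inv (F := ZMod N) (R := ℂ) hχ
  rw [jacobiSum_comm] at h1
  unfold jacobiSum at h1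
  -- substitute `z = - d * x`
  have hd' : -d ≠ 0 := neg_ne_zero.2 hd
  rw [← Equiv.sum_comp (Equiv.mulLeft₀ (-d) hd')]
  have h2 : ∀ x : ZMod N, χ ((Equiv.mulLeft₀ (-d) hd') x + d) * χ⁻¹ ((Equiv.mulLeft₀ (-d) hd') x) =
      χ (-1) * (χ⁻¹ x * χ (1 - x)) := by
    intro x
    have e1 : (Equiv.mulLeft₀ (-d) hd') x = -d * x := rfl
    rw [e1]
    have e2 : -d * x + d = d * (1 - x) := by ring
    rw [e2, map_mul, map_mul]
    have e3 : χ⁻¹ (-d) = χ (-1) * χ⁻¹ d := by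
      rw [neg_eq_neg_one_mul, map_mul]
      congr 1
      rw [MulChar.inv_apply']
      congr 1
      rw [inv_neg, inv_one]
    have e4 : χ d * χ⁻¹ d = 1 := by
      rw [MulChar.inv_apply', ← map_mul, mul_inv_cancel₀ hd, map_one]
    rw [e3]
    calc χ d * χ (1 - x) * (χ (-1) * χ⁻¹ d * χ⁻¹ x)
        = (χ d * χ⁻¹ d) * (χ (-1) * (χ⁻¹ x * χ (1 - x))) := by ring
      _ = _ := by rw [e4, one_mul]
  rw [Finset.sum_congr rfl fun x _ => h2 x, ← Finset.mul_sum, h1]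
  have e5 : χ (-1) * χ (-1) = 1 := by
    rw [← map_mul, neg_mul_neg, one_mul, map_one]
  linear_combination -e5

theorem norm_le_one (χ : MulChar (ZMod N) ℂ) (x : ZMod N) : ‖χ x‖ ≤ 1 := by
  by_cases hx : x = 0
  · rw [hx, MulChar.map_zero, norm_zero]
    exact zero_le_one
  · have h1 : χ x ^ (N - 1) = 1 := by
      rw [← map_pow, ZMod.pow_card_sub_one_eq_one hx, map_one]
    have hN : N - 1 ≠ 0 := by
      have := (Fact.out : N.Prime).two_le
      omega
    exact (Complex.norm_eq_one_of_pow_eq_one h1 hN).le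

theorem star_eq (χ : MulChar (ZMod N) ℂ) (x : ZMod N) : star (χ x) = χ⁻¹ x := by
  by_cases hx : x = 0
  · rw [hx, MulChar.map_zero, MulChar.map_zero, star_zero]
  · have h1 : χ x ^ (N - 1) = 1 := by
      rw [← map_pow, ZMod.pow_card_sub_one_eq_one hx, map_one]
    have hN : N - 1 ≠ 0 := by
      have := (Fact.out : N.Prime).two_le
      omega
    have h3 : ‖χ x‖ = 1 := Complex.norm_eq_one_of_pow_eq_one h1 hN
    rw [MulChar.inv_apply_eq_inv']
    exact (Complex.inv_eq_conj h3).symm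

/-- the second moment -/
theorem second_moment (χ : MulChar (ZMod N) ℂ) (hχ : χ ≠ 1) (J : Finset (ZMod N)) :
    ∑ y : ZMod N, ‖∑ x ∈ J, χ (x + y)‖ ^ 2 ≤ (J.card : ℝ) * N := by
  have h1 : ∀ x ∈ J, ∀ x' ∈ J, ∑ y : ZMod N, χ (x + y) * star (χ (x' + y)) =
      if x = x' then ((N : ℂ) - 1) else -1 := by
    intro x _ x' _
    by_cases hxx : x = x'
    · subst hxx
      rw [if_pos rfl]
      have h2 : ∀ y : ZMod N, χ (x + y) * star (χ (x + y)) = if x + y = 0 then 0 else 1 := by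
        intro y
        by_cases h0 : x + y = 0
        · rw [if_pos h0, h0, MulChar.map_zero, zero_mul]
        · rw [if_neg h0, star_eq, MulChar.inv_apply', ← map_mul, mul_inv_cancel₀ h0, map_one]
      rw [Finset.sum_congr rfl fun y _ => h2 y]
      rw [← Equiv.sum_comp (Equiv.addLeft (-x))]
      have h3 : ∀ y : ZMod N, (if x + (Equiv.addLeft (-x)) y = 0 then (0 : ℂ) else 1) =
          1 - if y = 0 then 1 else 0 := by
        intro y
        have e1 : x + (Equiv.addLeft (-x)) y = y := by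
          show x + (-x + y) = y
          ring
        rw [e1]
        split_ifs <;> ring
      rw [Finset.sum_congr rfl fun y _ => h3 y, Finset.sum_sub_distrib, Finset.sum_ite_eq',
        if_pos (Finset.mem_univ _), Finset.sum_const, Finset.card_univ, ZMod.card, nsmul_eq_mul,
        mul_one]
    · rw [if_neg hxx]
      have h2 := corr_shift χ hχ (d := x - x') (sub_ne_zero.2 hxx)
      rw [← Equiv.sum_comp (Equiv.addLeft x')] at h2
      rw [← h2]
      refine Finset.sum_congr rfl fun y _ => ?_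
      rw [star_eq]
      have e1 : (Equiv.addLeft x') y + (x - x') = x + y := by
        show x' + y + (x - x') = x + y
        ring
      rw [e1]
      rfl
  have h2 : ((∑ y : ZMod N, ‖∑ x ∈ J, χ (x + y)‖ ^ 2 : ℝ) : ℂ) =
      ∑ x ∈ J, ∑ x' ∈ J, ∑ y : ZMod N, χ (x + y) * star (χ (x' + y)) := by
    push_cast
    have e1 : ∀ y : ZMod N, ((‖∑ x ∈ J, χ (x + y)‖ : ℝ) : ℂ) ^ 2 =
        ∑ x ∈ J, ∑ x' ∈ J, χ (x + y) * star (χ (x' + y)) := by
      intro y
      rw [← Complex.mul_conj', map_sum, Finset.sum_mul_sum]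
      rfl
    rw [Finset.sum_congr rfl fun y _ => e1 y, Finset.sum_comm]
    refine Finset.sum_congr rfl fun x _ => ?_
    rw [Finset.sum_comm]
  have h3 : (∑ y : ZMod N, ‖∑ x ∈ J, χ (x + y)‖ ^ 2 : ℝ) =
      (J.card : ℝ) * (N - 1) - J.card * (J.card - 1) := by
    have e2 : ((∑ y : ZMod N, ‖∑ x ∈ J, χ (x + y)‖ ^ 2 : ℝ) : ℂ) =
        (((J.card : ℝ) * (N - 1) - J.card * (J.card - 1) : ℝ) : ℂ) := by
      rw [h2, Finset.sum_congr rfl fun x hx => Finset.sum_congr rfl fun x' hx' => h1 x hx x' hx']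
      have e3 : ∀ x ∈ J, ∑ x' ∈ J, (if x = x' then ((N : ℂ) - 1) else -1) = N - J.card := by
        intro x hx
        have e4 : ∀ x' ∈ J, (if x = x' then ((N : ℂ) - 1) else -1) =
            (if x = x' then (N : ℂ) else 0) - 1 := by
          intro x' _
          split_ifs <;> ring
        rw [Finset.sum_congr rfl e4, Finset.sum_sub_distrib, Finset.sum_ite_eq, if_pos hx,
          Finset.sum_const, nsmul_eq_mul, mul_one]
      rw [Finset.sum_congr rfl e3, Finset.sum_const, nsmul_eq_mul]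
      push_cast
      ring
    exact_mod_cast e2
  rw [h3]
  nlinarith [Nat.cast_nonneg (α := ℝ) J.card, Nat.cast_nonneg (α := ℝ) N]

/-- **The bilinear bound.** -/
theorem bilinear (χ : MulChar (ZMod N) ℂ) (hχ : χ ≠ 1) (J : Finset (ZMod N)) :
    ‖∑ y ∈ J, ∑ x ∈ J, χ (x + y)‖ ^ 2 ≤ (J.card : ℝ) ^ 2 * N := by
  have h1 : ‖∑ y ∈ J, ∑ x ∈ J, χ (x + y)‖ ≤ ∑ y ∈ J, ‖∑ x ∈ J, χ (x + y)‖ := norm_sum_le _ _
  have h2 : (∑ y ∈ J, ‖∑ x ∈ J, χ (x + y)‖) ^ 2 ≤
      (J.card : ℝ) * ∑ y ∈ J, ‖∑ x ∈ J, χ (x + y)‖ ^ 2 := sq_sum_le_card_mul_sum_sq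
  have h3 : ∑ y ∈ J, ‖∑ x ∈ J, χ (x + y)‖ ^ 2 ≤ ∑ y : ZMod N, ‖∑ x ∈ J, χ (x + y)‖ ^ 2 :=
    Finset.sum_le_univ_sum_of_nonneg fun _ => by positivity
  have h4 := second_moment χ hχ J
  have h5 : ‖∑ y ∈ J, ∑ x ∈ J, χ (x + y)‖ ^ 2 ≤ (∑ y ∈ J, ‖∑ x ∈ J, χ (x + y)‖) ^ 2 :=
    pow_le_pow_left₀ (norm_nonneg _) h1 2
  have h6 : (J.card : ℝ) * ∑ y ∈ J, ‖∑ x ∈ J, χ (x + y)‖ ^ 2 ≤ J.card * (J.card * N) :=
    mul_le_mul_of_nonneg_left (h3.trans h4) (Nat.cast_nonneg _)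
  calc _ ≤ _ := h5
    _ ≤ _ := h2
    _ ≤ _ := h6
    _ = _ := by ring

end Pool.Agent.U222.GT
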