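import Pool.Agent.U222.GT.Defs
import Pool.Agent.U222.SL.Mo6

/-!
# The coniveau filtration: functoriality
-/

set_option autoImplicit false

open CategoryTheory AlgebraicGeometry
open scoped TensorProduct

universe u

namespace Pool.Agent.U222.GT

open Pool.Agent.H914 Pool.Agent.H914.VarClass Pool.Agent.H914.VarClass.Obj
  Pool.Agent.H914.WeilCohomology Pool.Agent.H281R3.HT Pool.Agent.W552 Pool.Agent.TH125.Gal
  Pool.Agent.TH132.A Pool.Agent.N876.FL Pool.Agent.U222.SL.Mot Pool.Agent.U222.SL.Mo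

variable {k : Type u} [Field k] {𝒱 : VarClass k} {ops : CycleOps 𝒱}
  {W : WeilCohomology.{u, 0} ops} {X Y Z : 𝒱.Obj}

theorem mem_con {ν : ℕ} {e : ℤ} (he : (ν : ℤ) ≤ e) {u : W.H Y →ₗ[W.K] W.H X}
    (hu : IsCorrespondence W Y X e u) (y : W.H Y) : u y ∈ coniveau W X ν :=
  Submodule.subset_span ⟨Y, e, he, u, hu, y, rfl⟩

theorem con_mono {ν ν' : ℕ} (h : ν ≤ ν') : coniveau W X ν' ≤ coniveau W X ν := by
  refine Submodule.span_mono ?_
  rintro x ⟨Y, e, he, hu⟩
  exact ⟨Y, e, by omega, hu⟩

theorem con_zero : coniveau W X 0 = ⊤ := by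
  rw [eq_top_iff]
  intro x _
  exact mem_con (e := 0) (le_refl _) isCorr_one x

theorem con_map {d : ℤ} {v : W.H X →ₗ[W.K] W.H Y} (hv : IsCorrespondence W X Y d v) {ν ν' : ℕ}
    (h : (ν' : ℤ) ≤ ν + d) {x : W.H X} (hx : x ∈ coniveau W X ν) : v x ∈ coniveau W Y ν' := by
  induction hx using Submodule.span_induction with
  | mem x hx =>
    obtain ⟨Z, e, he, u, hu, y, rfl⟩ := hx
    exact mem_con (e := e + d) (by omega) (isCorr_comp hv hu) y
  | zero => rw [map_zero]; exact Submodule.zero_mem _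
  | add x y _ _ hx hy => rw [map_add]; exact Submodule.add_mem _ hx hy
  | smul r x _ hx => rw [map_smul]; exact Submodule.smul_mem _ _ hx

/-- the product with a class of a cycle -/
theorem isCorr_inj {a : W.H X} {j : ℕ} (ha : a ∈ algClasses W X j) :
    IsCorrespondence W Y (X.prod Y) j (inj W X Y a) := by
  have h1 : inj W X Y a = W.corr (W.push (lift (snd X Y) (𝟙 (X.prod Y))) (W.map (fst X Y) a)) := by
    refine LinearMap.ext fun y => ?_
    rw [corr_lift_pull]
    rfl
  rw [h1]
  exact isCorr_of (r := Y.dim + j) (by push_cast; ring)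
    (alg_push _ (alg_map (fst X Y) ha) (by simp only [dim_prod]; ring))

theorem isCorr_cof {b : W.H X} {l : ℕ} (hb : b ∈ algClasses W X l) :
    IsCorrespondence W (X.prod Y) Y ((l : ℤ) - X.dim) (cof W X Y b) := by
  have h1 : cof W X Y b = W.corr (W.push (lift (𝟙 (X.prod Y)) (snd X Y)) (W.map (fst X Y) b)) := by
    refine LinearMap.ext fun y => ?_
    rw [corr_lift_push]
    rfl
  rw [h1]
  exact isCorr_of (r := Y.dim + l) (by simp only [dim_prod]; push_cast; ring)
    (alg_push _ (alg_map (fst X Y) hb) (by simp only [dim_prod]; ring))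

/-- base change -/
theorem push_p13 (a : W.H X) (w : W.H (Y.prod Z)) :
    W.push (p13 X Y Z) (W.map (fst X (Y.prod Z)) a * W.map (snd X (Y.prod Z)) w) =
      ext W a (W.push (snd Y Z) w) := by
  refine W.kunneth_induction (p := fun w => W.push (p13 X Y Z)
    (W.map (fst X (Y.prod Z)) a * W.map (snd X (Y.prod Z)) w) = ext W a (W.push (snd Y Z) w))
    ?_ ?_ w
  · intro w w' h h'
    rw [map_add, mul_add, map_add, h, h', map_add]
    show _ = W.map (fst X Z) a * W.map (snd X Z) _
    rw [map_add, mul_add]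
    rfl
  · intro i j y1 hy1 b1 hb1
    rw [W.push_snd]
    apply W.tr_ext
    intro t
    rw [W.tr_push]
    refine W.kunneth_induction (p := fun t => W.tr _ (W.map (fst X (Y.prod Z)) a *
      W.map (snd X (Y.prod Z)) (W.map (fst Y Z) y1 * W.map (snd Y Z) b1) * W.map (p13 X Y Z) t) =
      W.tr _ (ext W a (W.tr Y y1 • b1) * t)) ?_ ?_ t
    · intro t t' h h'
      rw [map_add, mul_add, map_add, h, h', mul_add, map_add]
    · intro i' j' x' hx' b' hb'
      have e1 : p13 X Y Z ≫ fst X Z = fst X (Y.prod Z) := Obj.lift_fst _ _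
      have e2 : p13 X Y Z ≫ snd X Z = snd X (Y.prod Z) ≫ snd Y Z := Obj.lift_snd _ _
      have hw : W.map (fst Y Z) y1 * W.map (snd Y Z) b1 ∈ W.gr (Y.prod Z) (i + j) :=
        W.mul_mem (W.map_mem _ hy1) (W.map_mem _ hb1)
      have h1 : W.map (snd X (Y.prod Z)) (W.map (fst Y Z) y1 * W.map (snd Y Z) b1) *
          W.map (fst X (Y.prod Z)) x' = (-1 : W.K) ^ ((i + j) * i') •
          (W.map (fst X (Y.prod Z)) x' *
            W.map (snd X (Y.prod Z)) (W.map (fst Y Z) y1 * W.map (snd Y Z) b1)) :=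
        W.comm (W.map_mem _ hw) (W.map_mem _ hx')
      have h2 : W.map (snd X Z) b1 * W.map (fst X Z) x' = (-1 : W.K) ^ (j * i') •
          (W.map (fst X Z) x' * W.map (snd X Z) b1) := W.comm (W.map_mem _ hb1) (W.map_mem _ hx')
      have h3 : W.tr _ (W.map (fst X (Y.prod Z)) a *
          W.map (snd X (Y.prod Z)) (W.map (fst Y Z) y1 * W.map (snd Y Z) b1) *
            W.map (p13 X Y Z) (W.map (fst X Z) x' * W.map (snd X Z) b')) =
          (-1 : W.K) ^ ((i + j) * i') * (W.tr X (a * x') * (W.tr Y y1 * W.tr Z (b1 * b'))) := by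
        rw [map_mul (W.map (p13 X Y Z)), ← W.map_comp, ← W.map_comp, e1, e2, W.map_comp]
        have e3 : W.map (fst X (Y.prod Z)) a *
            W.map (snd X (Y.prod Z)) (W.map (fst Y Z) y1 * W.map (snd Y Z) b1) *
            (W.map (fst X (Y.prod Z)) x' * W.map (snd X (Y.prod Z)) (W.map (snd Y Z) b')) =
            (-1 : W.K) ^ ((i + j) * i') • (W.map (fst X (Y.prod Z)) (a * x') *
              W.map (snd X (Y.prod Z)) (W.map (fst Y Z) y1 * W.map (snd Y Z) (b1 * b'))) := by
          calc _ = W.map (fst X (Y.prod Z)) a *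
              (W.map (snd X (Y.prod Z)) (W.map (fst Y Z) y1 * W.map (snd Y Z) b1) *
                W.map (fst X (Y.prod Z)) x') * W.map (snd X (Y.prod Z)) (W.map (snd Y Z) b') := by
                simp only [mul_assoc]
            _ = _ := by
                rw [h1, mul_smul_comm, smul_mul_assoc]
                simp only [map_mul, mul_assoc]
        rw [e3, map_smul, W.tr_prod, W.tr_prod, smul_eq_mul]
      have h4 : W.tr _ (ext W a (W.tr Y y1 • b1) * (W.map (fst X Z) x' * W.map (snd X Z) b')) =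
          W.tr Y y1 * ((-1 : W.K) ^ (j * i') * (W.tr X (a * x') * W.tr Z (b1 * b'))) := by
        have e3 : ext W a (W.tr Y y1 • b1) * (W.map (fst X Z) x' * W.map (snd X Z) b') =
            W.tr Y y1 • ((-1 : W.K) ^ (j * i') • (W.map (fst X Z) (a * x') *
              W.map (snd X Z) (b1 * b'))) := by
          calc _ = W.tr Y y1 • (W.map (fst X Z) a * (W.map (snd X Z) b1 * W.map (fst X Z) x') *
                W.map (snd X Z) b') := by
                show W.map (fst X Z) a * W.map (snd X Z) (W.tr Y y1 • b1) * _ = _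
                rw [map_smul, mul_smul_comm, smul_mul_assoc]
                simp only [mul_assoc]
            _ = _ := by
                rw [h2, mul_smul_comm, smul_mul_assoc]
                simp only [map_mul, mul_assoc]
        rw [e3, map_smul, map_smul, W.tr_prod, smul_eq_mul, smul_eq_mul]
      rw [h3, h4]
      by_cases hi : i = 2 * Y.dim
      · have h5 : (-1 : W.K) ^ ((i + j) * i') = (-1 : W.K) ^ (j * i') := by
          rw [add_mul, pow_add, hi, mul_assoc, pow_mul, neg_one_sq, one_pow, one_mul]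
        rw [h5]
        ring
      · rw [W.tr_eq_zero hy1 hi]
        ring

/-- the product with any class -/
theorem ext_corr {a : W.H X} {e : ℤ} {u : W.H Y →ₗ[W.K] W.H Z} (hu : IsCorrespondence W Y Z e u) :
    ∃ u' : W.H (X.prod Y) →ₗ[W.K] W.H (X.prod Z), IsCorrespondence W (X.prod Y) (X.prod Z) e u' ∧
      ∀ y, u' (ext W a y) = ext W a (u y) := by
  rcases isCorr_cases hu with rfl | ⟨r, c, hr, hc, rfl⟩
  · refine ⟨0, isCorr_zero, fun y => ?_⟩
    show (0 : W.H (X.prod Z)) = W.map (fst X Z) a * W.map (snd X Z) 0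
    rw [map_zero, mul_zero]
  set g := lift (p12 X Y Z) (p13 X Y Z) with hg
  refine ⟨W.corr (W.push g (W.map (snd X (Y.prod Z)) c)), ?_, fun y => ?_⟩
  · refine isCorr_of (r := r + X.dim) (by simp only [dim_prod]; push_cast; omega) ?_
    exact alg_push g (alg_map _ hc) (by simp only [dim_prod]; ring)
  · have e1 : g ≫ fst (X.prod Y) (X.prod Z) = p12 X Y Z := Obj.lift_fst _ _
    have e2 : g ≫ snd (X.prod Y) (X.prod Z) = p13 X Y Z := Obj.lift_snd _ _
    have e3 : p12 X Y Z ≫ fst X Y = fst X (Y.prod Z) := Obj.lift_fst _ _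
    have e4 : p12 X Y Z ≫ snd X Y = snd X (Y.prod Z) ≫ fst Y Z := Obj.lift_snd _ _
    rw [corr_apply, ← W.push_mul, ← W.push_comp, ← W.map_comp, e1, e2]
    have e5 : W.map (p12 X Y Z) (ext W a y) = W.map (fst X (Y.prod Z)) a *
        W.map (snd X (Y.prod Z)) (W.map (fst Y Z) y) := by
      show W.map (p12 X Y Z) (W.map (fst X Y) a * W.map (snd X Y) y) = _
      rw [map_mul, ← W.map_comp, ← W.map_comp, e3, e4, W.map_comp]
    have e6 : W.map (snd X (Y.prod Z)) c * (W.map (fst X (Y.prod Z)) a *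
        W.map (snd X (Y.prod Z)) (W.map (fst Y Z) y)) = W.map (fst X (Y.prod Z)) a *
        W.map (snd X (Y.prod Z)) (c * W.map (fst Y Z) y) := by
      rw [map_mul, ← mul_assoc, ← mul_assoc,
        W.even_comm (W.map_mem _ (alg_gr hc)) (W.map (fst X (Y.prod Z)) a)]
    rw [e5, e6, push_p13]
    rfl

theorem con_ext (a : W.H X) {ν : ℕ} {y : W.H Z} (hy : y ∈ coniveau W Z ν) :
    ext W a y ∈ coniveau W (X.prod Z) ν := by
  induction hy using Submodule.span_induction with
  | mem x hx =>
    obtain ⟨Y, e, he, u, hu, y, rfl⟩ := hx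
    obtain ⟨u', hu', h⟩ := ext_corr (a := a) hu
    rw [← h]
    exact mem_con he hu' _
  | zero =>
    show W.map (fst X Z) a * W.map (snd X Z) 0 ∈ _
    rw [map_zero, mul_zero]
    exact Submodule.zero_mem _
  | add x y _ _ hx hy =>
    show W.map (fst X Z) a * W.map (snd X Z) (x + y) ∈ _
    rw [map_add, mul_add]
    exact Submodule.add_mem _ hx hy
  | smul r x _ hx =>
    show W.map (fst X Z) a * W.map (snd X Z) (r • x) ∈ _
    rw [map_smul, mul_smul_comm]
    exact Submodule.smul_mem _ _ hx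

end Pool.Agent.U222.GT
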