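import Pool.Agent.U222.GT.Bil

/-!
# Small elements in the cosets of subgroups of small index
-/

set_option autoImplicit false

open Finset

namespace Pool.Agent.U222.GT

/-- the unit of an element -/
noncomputable def toUnit {N : ℕ} [Fact N.Prime] (x : ZMod N) : (ZMod N)ˣ :=
  if h : x ≠ 0 then Units.mk0 x h else 1

theorem toUnit_val {N : ℕ} [Fact N.Prime] {x : ZMod N} (h : x ≠ 0) : (toUnit x : ZMod N) = x := by
  unfold toUnit
  rw [dif_pos h]
  rfl

/-- the size of the intervals -/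
theorem size_bound {N a m : ℕ} (ha : 0 < a) (hN : 4 * a ^ 2 * (m + 1) ^ 2 ≤ N) :
    N * m ^ 2 ≤ ((N - 1) / (2 * a)) ^ 2 := by
  set n := (N - 1) / (2 * a) with hn
  have hN0 : 0 < N := lt_of_lt_of_le (by positivity) hN
  have h1 : N ≤ 2 * a * (n + 1) := by
    have h2 : N - 1 < 2 * a * (n + 1) := by
      rw [hn, mul_comm]
      exact Nat.lt_mul_of_div_lt (Nat.lt_succ_self _) (by omega)
    omega
  have h1' : (N : ℝ) ≤ 2 * a * (n + 1) := by exact_mod_cast h1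
  have hN' : 4 * (a : ℝ) ^ 2 * (m + 1) ^ 2 ≤ N := by exact_mod_cast hN
  have ha' : (1 : ℝ) ≤ a := by exact_mod_cast ha
  set s := Real.sqrt N with hs
  have hs2 : s ^ 2 = N := Real.sq_sqrt (Nat.cast_nonneg N)
  have hs0 : 0 ≤ s := Real.sqrt_nonneg _
  have h3 : 2 * (a : ℝ) * (m + 1) ≤ s := by
    have h4 : (2 * (a : ℝ) * (m + 1)) ^ 2 ≤ (N : ℝ) := by
      have h5 : (2 * (a : ℝ) * (m + 1)) ^ 2 = 4 * (a : ℝ) ^ 2 * (m + 1) ^ 2 := by ring
      rw [h5]
      exact hN'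
    exact Real.le_sqrt_of_sq_le h4
  have hm : (0 : ℝ) ≤ m := Nat.cast_nonneg m
  have h4 : (m : ℝ) * s ≤ n := by
    have h5 : 2 * (a : ℝ) * (m * s) ≤ 2 * a * n := by
      have h6 : (2 : ℝ) * a ≤ s * (s - 2 * a * m) := by
        have h7 : (2 : ℝ) * a ≤ s - 2 * a * m := by nlinarith
        have h8 : (1 : ℝ) ≤ s := by nlinarith
        nlinarith
      nlinarith
    have h9 : (0 : ℝ) < 2 * a := by linarith
    exact le_of_mul_le_mul_left h5 h9
  have h5 : ((N * m ^ 2 : ℕ) : ℝ) ≤ ((n ^ 2 : ℕ) : ℝ) := by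
    push_cast
    have h6 : ((m : ℝ) * s) ^ 2 ≤ (n : ℝ) ^ 2 := pow_le_pow_left₀ (mul_nonneg hm hs0) h4 2
    rw [mul_pow, hs2] at h6
    linarith
  exact_mod_cast h5

/-- the interval as a set of residues -/
noncomputable def itv (N a : ℕ) : Finset (ZMod N) :=
  (Finset.Icc 1 ((N - 1) / (2 * a))).image (Nat.cast : ℕ → ZMod N)

theorem itv_inj {N a : ℕ} (hN : 0 < N) : Set.InjOn (Nat.cast : ℕ → ZMod N)
    (Finset.Icc 1 ((N - 1) / (2 * a)) : Finset ℕ) := by
  intro x hx y hy hxy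
  rw [Finset.coe_Icc, Set.mem_Icc] at hx hy
  have h1 : (N - 1) / (2 * a) ≤ N - 1 := Nat.div_le_self _ _
  have h2 := (ZMod.natCast_eq_natCast_iff' x y N).1 hxy
  rwa [Nat.mod_eq_of_lt (by omega), Nat.mod_eq_of_lt (by omega)] at h2

theorem card_itv {N a : ℕ} (hN : 0 < N) : (itv N a).card = (N - 1) / (2 * a) := by
  unfold itv
  rw [Finset.card_image_of_injOn (itv_inj hN), Nat.card_Icc, Nat.add_sub_cancel]

theorem itv_add {N a : ℕ} (ha : 0 < a) (hN : 0 < N) {x y : ZMod N} (hx : x ∈ itv N a)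
    (hy : y ∈ itv N a) : 0 < (x + y).val ∧ a * (x + y).val < N := by
  unfold itv at hx hy
  obtain ⟨x', hx', rfl⟩ := Finset.mem_image.1 hx
  obtain ⟨y', hy', rfl⟩ := Finset.mem_image.1 hy
  rw [Finset.mem_Icc] at hx' hy'
  have h1 : 2 * a * ((N - 1) / (2 * a)) ≤ N - 1 := Nat.mul_div_le _ _
  set n := (N - 1) / (2 * a)
  have h2 : a * (x' + y') ≤ 2 * a * n := by
    have : x' + y' ≤ 2 * n := by omega
    calc a * (x' + y') ≤ a * (2 * n) := Nat.mul_le_mul_left _ this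
      _ = _ := by ring
  have h3 : x' + y' ≤ a * (x' + y') := Nat.le_mul_of_pos_left _ ha
  have h4 : ((x' : ZMod N) + (y' : ZMod N)).val = x' + y' := by
    rw [← Nat.cast_add, ZMod.val_natCast, Nat.mod_eq_of_lt (by omega)]
  rw [h4]
  constructor <;> omega

section coset

variable {ι : Type} [Fintype ι] [DecidableEq ι] {N : ι → ℕ} [∀ i, Fact (N i).Prime]
  {Q : Type} [AddCommGroup Q] (π : (∀ i, (ZMod (N i))ˣ) →* Multiplicative Q)

/-- the character on a factor, as a homomorphism -/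
noncomputable def facHom (ψ : AddChar Q ℂ) (i : ι) : (ZMod (N i))ˣ →* ℂ where
  toFun t := ψ (π (Pi.mulSingle i t)).toAdd
  map_one' := by
    rw [Pi.mulSingle_one, map_one, toAdd_one, AddChar.map_zero_eq_one]
  map_mul' s t := by
    rw [Pi.mulSingle_mul, map_mul, toAdd_mul, AddChar.map_add_eq_mul]

/-- the character on a factor -/
noncomputable def fac (ψ : AddChar Q ℂ) (i : ι) : MulChar (ZMod (N i)) ℂ :=
  MulChar.ofUnitHom (MonoidHom.toHomUnits (facHom π ψ i))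

omit [Fintype ι] in
theorem fac_unit (ψ : AddChar Q ℂ) (i : ι) (t : (ZMod (N i))ˣ) :
    fac π ψ i (t : ZMod (N i)) = ψ (π (Pi.mulSingle i t)).toAdd := by
  unfold fac
  rw [MulChar.ofUnitHom_coe, MonoidHom.coe_toHomUnits]
  rfl

theorem prod_fac (ψ : AddChar Q ℂ) (t : ∀ i, (ZMod (N i))ˣ) :
    ψ (π t).toAdd = ∏ i, fac π ψ i (t i : ZMod (N i)) := by
  have h1 : ∀ s : Finset ι, ψ (π (∏ i ∈ s, Pi.mulSingle i (t i))).toAdd =
      ∏ i ∈ s, fac π ψ i (t i : ZMod (N i)) := by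
    intro s
    induction s using Finset.induction_on with
    | empty =>
      rw [Finset.prod_empty, Finset.prod_empty, map_one, toAdd_one, AddChar.map_zero_eq_one]
    | insert a s ha ih =>
      rw [Finset.prod_insert ha, Finset.prod_insert ha, map_mul, toAdd_mul,
        AddChar.map_add_eq_mul, ih, fac_unit]
  have h2 := h1 Finset.univ
  rwa [Finset.univ_prod_mulSingle] at h2

/-- **Small elements in cosets.** -/
theorem exists_small_aux [Finite Q] (hπ : Function.Surjective π) (a : ι → ℕ) (ha : ∀ i, 0 < a i)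
    {m : ℕ} (hN : ∀ i, 4 * a i ^ 2 * (m + 1) ^ 2 ≤ N i)
    (hH : Nat.card Q ≤ m) (j : ∀ i, (ZMod (N i))ˣ) :
    ∃ u, π u = 1 ∧ ∀ i, 0 < ((u i * j i : (ZMod (N i))ˣ) : ZMod (N i)).val ∧
      a i * ((u i * j i : (ZMod (N i))ˣ) : ZMod (N i)).val < N i := by
  classical
  by_contra hcon
  push Not at hcon
  have hN0 : ∀ i, 0 < N i := fun i => (Fact.out : (N i).Prime).pos
  set P := Fintype.piFinset fun i => itv (N i) (a i) ×ˢ itv (N i) (a i) with hP
  have : Fintype Q := Fintype.ofFinite Q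
  let uu : (∀ i, ZMod (N i) × ZMod (N i)) → (∀ i, (ZMod (N i))ˣ) :=
    fun t i => toUnit ((t i).1 + (t i).2)
  have huu : ∀ t ∈ P, ∀ i, ((uu t i : (ZMod (N i))ˣ) : ZMod (N i)) = (t i).1 + (t i).2 := by
    intro t ht i
    have h1 := Fintype.mem_piFinset.1 ht i
    rw [Finset.mem_product] at h1
    have h2 := itv_add (ha i) (hN0 i) h1.1 h1.2
    exact toUnit_val fun h0 => by rw [h0, ZMod.val_zero] at h2; exact lt_irrefl _ h2.1
  have hne : ∀ t ∈ P, (π (uu t * j⁻¹)).toAdd ≠ 0 := by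
    intro t ht h0
    have h0' : π (uu t * j⁻¹) = 1 := by
      rw [← toAdd_one] at h0
      exact Multiplicative.toAdd.injective h0
    obtain ⟨i, hi⟩ := hcon _ h0'
    have h1 := Fintype.mem_piFinset.1 ht i
    rw [Finset.mem_product] at h1
    have h2 := itv_add (ha i) (hN0 i) h1.1 h1.2
    have h3 : (((uu t * j⁻¹) i * j i : (ZMod (N i))ˣ) : ZMod (N i)) = (t i).1 + (t i).2 := by
      rw [Pi.mul_apply, Pi.inv_apply, inv_mul_cancel_right]
      exact huu t ht i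
    rw [h3] at hi
    have h4 := hi h2.1
    omega
  have hsum0 : ∀ t ∈ P, ∑ ψ : AddChar Q ℂ, ψ (π (uu t * j⁻¹)).toAdd = 0 := by
    intro t ht
    exact AddChar.sum_apply_eq_zero_iff_ne_zero.2 (hne t ht)
  -- the sum over `P`
  set Bf : AddChar Q ℂ → ι → ℂ := fun ψ i =>
    ∑ y ∈ itv (N i) (a i), ∑ x ∈ itv (N i) (a i), fac π ψ i (x + y) with hBf
  have hS : ∀ ψ : AddChar Q ℂ,
      ∑ t ∈ P, ψ (π (uu t * j⁻¹)).toAdd = ψ (π j⁻¹).toAdd * ∏ i, Bf ψ i := by
    intro ψ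
    have h1 : ∀ t ∈ P, ψ (π (uu t * j⁻¹)).toAdd =
        ψ (π j⁻¹).toAdd * ∏ i, fac π ψ i ((t i).1 + (t i).2) := by
      intro t ht
      rw [map_mul, toAdd_mul, AddChar.map_add_eq_mul, prod_fac π ψ (uu t), mul_comm]
      congr 1
      exact Finset.prod_congr rfl fun i _ => by rw [huu t ht i]
    rw [Finset.sum_congr rfl h1, ← Finset.mul_sum]
    congr 1
    rw [hP, ← Finset.prod_univ_sum (fun i => itv (N i) (a i) ×ˢ itv (N i) (a i))
      (fun i (p : ZMod (N i) × ZMod (N i)) => fac π ψ i (p.1 + p.2))]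
    refine Finset.prod_congr rfl fun i _ => ?_
    rw [Finset.sum_product, Finset.sum_comm]
  have htot : ∑ ψ : AddChar Q ℂ, ψ (π j⁻¹).toAdd * ∏ i, Bf ψ i = 0 := by
    rw [← Finset.sum_congr rfl fun ψ _ => hS ψ, Finset.sum_comm]
    exact Finset.sum_eq_zero hsum0
  set n : ι → ℝ := fun i => ((itv (N i) (a i)).card : ℝ) with hn
  have hnN : ∀ i, (N i : ℝ) * m ^ 2 ≤ n i ^ 2 := by
    intro i
    have h1 := size_bound (ha i) (hN i)
    rw [hn]
    simp only [card_itv (hN0 i)]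
    exact_mod_cast h1
  have hm0 : 0 < m := lt_of_lt_of_le Nat.card_pos hH
  have hn0 : ∀ i, 0 < n i := by
    intro i
    have h1 := hnN i
    have h2 : (0 : ℝ) < N i := by exact_mod_cast hN0 i
    have h3 : (0 : ℝ) < m := by exact_mod_cast hm0
    have h4 : 0 < (N i : ℝ) * m ^ 2 := by positivity
    have h5 : 0 ≤ n i := Nat.cast_nonneg _
    rcases h5.lt_or_eq with h | h
    · exact h
    · rw [← h] at h1
      norm_num at h1
      linarith
  -- the trivial character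
  have htriv : ∏ i, Bf 1 i = ((∏ i, n i ^ 2 : ℝ) : ℂ) := by
    rw [Complex.ofReal_prod]
    refine Finset.prod_congr rfl fun i _ => ?_
    have h1 : ∀ y ∈ itv (N i) (a i), ∀ x ∈ itv (N i) (a i),
        fac π (1 : AddChar Q ℂ) i (x + y) = 1 := by
      intro y hy x hx
      have h2 := itv_add (ha i) (hN0 i) hx hy
      have h3 : x + y ≠ 0 := fun h0 => by rw [h0, ZMod.val_zero] at h2; exact lt_irrefl _ h2.1
      rw [← toUnit_val h3, fac_unit]
      rfl
    show ∑ y ∈ itv (N i) (a i), ∑ x ∈ itv (N i) (a i), fac π 1 i (x + y) = _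
    rw [Finset.sum_congr rfl fun y hy => Finset.sum_congr rfl fun x hx => h1 y hy x hx]
    simp only [Finset.sum_const, nsmul_eq_mul, mul_one, hn]
    push_cast
    ring
  -- the other characters
  have hB1 : ∀ ψ i, ‖Bf ψ i‖ ≤ n i ^ 2 := by
    intro ψ i
    calc ‖Bf ψ i‖ ≤ ∑ y ∈ itv (N i) (a i), ∑ x ∈ itv (N i) (a i), (1 : ℝ) :=
          (norm_sum_le _ _).trans (Finset.sum_le_sum fun y _ =>
            (norm_sum_le _ _).trans (Finset.sum_le_sum fun x _ => norm_le_one _ _))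
      _ = n i ^ 2 := by
          simp only [Finset.sum_const, nsmul_eq_mul, mul_one, hn]
          ring
  have hM0 : 0 < ∏ i, n i ^ 2 := Finset.prod_pos fun i _ => pow_pos (hn0 i) 2
  have hB2 : ∀ ψ : AddChar Q ℂ, ψ ≠ 1 → (m : ℝ) * ‖∏ i, Bf ψ i‖ ≤ ∏ i, n i ^ 2 := by
    intro ψ hψ
    obtain ⟨i0, hi0⟩ : ∃ i, fac π ψ i ≠ 1 := by
      by_contra hall
      push Not at hall
      apply hψ
      ext x
      obtain ⟨t, ht⟩ := hπ (Multiplicative.ofAdd x)
      have h1 : ψ x = ψ (π t).toAdd := by rw [ht, toAdd_ofAdd]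
      rw [h1, prod_fac, Finset.prod_eq_one]
      · rfl
      · intro i _
        rw [hall i, MulChar.one_apply_coe]
    have h1 : (m : ℝ) * ‖Bf ψ i0‖ ≤ n i0 ^ 2 := by
      have h2 := bilinear (fac π ψ i0) hi0 (itv (N i0) (a i0))
      have h3 : ((m : ℝ) * ‖Bf ψ i0‖) ^ 2 ≤ (n i0 ^ 2) ^ 2 := by
        calc ((m : ℝ) * ‖Bf ψ i0‖) ^ 2 = m ^ 2 * ‖Bf ψ i0‖ ^ 2 := by ring
          _ ≤ m ^ 2 * (n i0 ^ 2 * N i0) := mul_le_mul_of_nonneg_left h2 (by positivity)
          _ = n i0 ^ 2 * (N i0 * m ^ 2) := by ring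
          _ ≤ n i0 ^ 2 * n i0 ^ 2 := mul_le_mul_of_nonneg_left (hnN i0) (by positivity)
          _ = _ := by ring
      exact (sq_le_sq₀ (by positivity) (by positivity)).1 h3
    rw [norm_prod, ← Finset.mul_prod_erase _ _ (Finset.mem_univ i0),
      ← Finset.mul_prod_erase _ (fun i => n i ^ 2) (Finset.mem_univ i0), ← mul_assoc]
    exact mul_le_mul h1 (Finset.prod_le_prod (fun i _ => norm_nonneg _) fun i _ => hB1 ψ i)
      (Finset.prod_nonneg fun i _ => norm_nonneg _) (by positivity)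
  -- conclusion
  rw [← Finset.add_sum_erase _ _ (Finset.mem_univ (1 : AddChar Q ℂ))] at htot
  have h1 : (1 : AddChar Q ℂ) (π j⁻¹).toAdd = 1 := rfl
  rw [h1, one_mul, htriv] at htot
  have h2 : ∏ i, n i ^ 2 ≤ ∑ ψ ∈ Finset.univ.erase (1 : AddChar Q ℂ),
      ‖∏ i, Bf ψ i‖ := by
    have h3 : ((∏ i, n i ^ 2 : ℝ) : ℂ) = -∑ ψ ∈ Finset.univ.erase (1 : AddChar Q ℂ),
        ψ (π j⁻¹).toAdd * ∏ i, Bf ψ i := by
      linear_combination htot
    have h4 := congrArg norm h3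
    rw [norm_neg, Complex.norm_real, Real.norm_of_nonneg hM0.le] at h4
    rw [h4]
    refine (norm_sum_le _ _).trans (Finset.sum_le_sum fun ψ _ => ?_)
    rw [norm_mul, AddChar.norm_apply, one_mul]
  have h3 : (m : ℝ) * ∏ i, n i ^ 2 ≤
      (Finset.univ.erase (1 : AddChar Q ℂ)).card * ∏ i, n i ^ 2 := by
    calc (m : ℝ) * ∏ i, n i ^ 2 ≤ m * ∑ ψ ∈ Finset.univ.erase (1 : AddChar Q ℂ),
          ‖∏ i, Bf ψ i‖ := mul_le_mul_of_nonneg_left h2 (Nat.cast_nonneg _)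
      _ = ∑ ψ ∈ Finset.univ.erase (1 : AddChar Q ℂ), m * ‖∏ i, Bf ψ i‖ := by
          rw [Finset.mul_sum]
      _ ≤ ∑ ψ ∈ Finset.univ.erase (1 : AddChar Q ℂ), ∏ i, n i ^ 2 :=
          Finset.sum_le_sum fun ψ hψ => hB2 ψ (Finset.ne_of_mem_erase hψ)
      _ = _ := by rw [Finset.sum_const, nsmul_eq_mul]
  have h4 : (m : ℝ) ≤ (Finset.univ.erase (1 : AddChar Q ℂ)).card :=
    le_of_mul_le_mul_right h3 hM0
  rw [Finset.card_erase_of_mem (Finset.mem_univ _), Finset.card_univ] at h4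
  have h5 : Fintype.card (AddChar Q ℂ) = Nat.card Q := by
    have h6 : Fintype.card (AddChar Q ℂ) = Fintype.card Q := AddChar.card_eq
    rw [h6, ← Nat.card_eq_fintype_card]
  rw [h5] at h4
  have h6 : m ≤ Nat.card Q - 1 := by exact_mod_cast h4
  omega

end coset

/-- **Small elements in cosets.**  In a product of groups `(ZMod N_i)ˣ` with `N_i` prime and
`4 a_i² (m+1)² ≤ N_i`, every coset of a subgroup of index at most `m` has an element with all
residues smaller than `N_i / a_i`. -/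
theorem exists_small {ι : Type} [Fintype ι] [DecidableEq ι] {N : ι → ℕ} [∀ i, Fact (N i).Prime]
    (a : ι → ℕ) (ha : ∀ i, 0 < a i) {m : ℕ}
    (hN : ∀ i, 4 * a i ^ 2 * (m + 1) ^ 2 ≤ N i) (H : Subgroup (∀ i, (ZMod (N i))ˣ))
    (hH : H.index ≤ m) (j : ∀ i, (ZMod (N i))ˣ) :
    ∃ u ∈ H, ∀ i, 0 < ((u i * j i : (ZMod (N i))ˣ) : ZMod (N i)).val ∧
      a i * ((u i * j i : (ZMod (N i))ˣ) : ZMod (N i)).val < N i := by
  have : Finite (Additive ((∀ i, (ZMod (N i))ˣ) ⧸ H)) := Quotient.finite _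
  obtain ⟨u, hu, h⟩ := exists_small_aux (Q := Additive ((∀ i, (ZMod (N i))ˣ) ⧸ H))
    (π := (QuotientGroup.mk' H : (∀ i, (ZMod (N i))ˣ) →* _))
    (QuotientGroup.mk'_surjective H) a ha hN hH j
  exact ⟨u, (QuotientGroup.eq_one_iff u).1 hu, h⟩

end Pool.Agent.U222.GT
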