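import Pool.Agent.U222.SL.MotDefs
import Pool.Agent.U222.SL.GeoDefs

/-!
# The coniveau filtration and the generalized Tate conjecture over finite fields: definitions
-/

set_option autoImplicit false

open Finset CategoryTheory AlgebraicGeometry

universe u

namespace Pool.Agent.U222.GT

section algebra

variable {K H : Type} [Field K] [AddCommGroup H] [Module K H]

/-- `U` is stable under `F`, and `α / q ^ ν` is an algebraic integer for all eigenvalues `α` of `F`
on `U`. -/
def IsEffective (F : Module.End K H) (q ν : ℕ) (U : Submodule K H) : Prop :=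
  (∀ x ∈ U, F x ∈ U) ∧ ∀ α, ∀ x ∈ U, x ≠ 0 → F x = α • x → IsIntegral ℤ (α / (q : K) ^ ν)

/-- For all degrees `i`, all `ν` and all `m ≥ 1`, the subspaces `U` of `gr i` which are stable under
`F ^ m` and effective of coniveau `ν` are contained in `N ν`. -/
def AllEffective (F : Module.End K H) (q : ℕ) (gr N : ℕ → Submodule K H) : Prop :=
  ∀ i ν m : ℕ, 0 < m → ∀ U ≤ gr i, IsEffective (F ^ m) (q ^ m) ν U → U ≤ N ν

/-- The subspace generated by the images of the members `u` of the sets `C i e` for all `i` and all
`e ≥ ν`. -/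
def imageSpan {ι : Type*} {V : ι → Type} [∀ i, AddCommGroup (V i)] [∀ i, Module K (V i)]
    (C : ∀ i, ℤ → Set (V i →ₗ[K] H)) (ν : ℕ) : Submodule K H :=
  Submodule.span K {x | ∃ (i : ι) (e : ℤ), (ν : ℤ) ≤ e ∧ ∃ u ∈ C i e, ∃ y, u y = x}

/-- Some member of `C` has degree `1`. -/
def HasDegreeOne (tr : H →ₗ[K] K) (C : Set H) : Prop := ∃ a ∈ C, tr a = 1

/-- The members of `B` are algebraic integers of degree at most `m` over `ℚ`. -/
def IntegralOfDegree (m : ℕ) (B : Set ℂ) : Prop :=
  ∀ β ∈ B, IsIntegral ℤ β ∧ (minpoly ℚ β).natDegree ≤ m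

end algebra

/-- `N` is a prime number, `z` has order `N`, the exponents are prime to `N` and have the sum `N`, one
of them is `N - A` with `A ≥ 2` (so `w ^ N` is a form of degree `A` in affine coordinates), and
`4 A ^ 2 (m + 1) ^ 2 ≤ N`. -/
structure IsLarge {κ : Type} [Field κ] (X : SL.Geo.Covering κ) (m : ℕ) : Prop where
  prime : X.N.Prime
  root : IsPrimitiveRoot X.z X.N
  coprime : ∀ k, (X.a k).Coprime X.N
  sum : ∑ k, X.a k = X.N
  large : ∃ k, 2 ≤ X.N - X.a k ∧ 4 * (X.N - X.a k) ^ 2 * (m + 1) ^ 2 ≤ X.N

open Pool.Agent.H914 Pool.Agent.H914.VarClass Pool.Agent.H914.VarClass.Obj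
  Pool.Agent.H914.WeilCohomology Pool.Agent.H281R3.HT Pool.Agent.TH125.Gal Pool.Agent.U222.SL.Geo
  Pool.Agent.U222.SL.Mot

variable {k : Type u} [Field k] {𝒱 : VarClass k} {ops : CycleOps 𝒱}
  {W : WeilCohomology.{u, 0} ops} {Γ : Type} [Group Γ]

/-- The coniveau filtration `N ^ ν` on the cohomology of `A`: the subspace generated by the images of
all correspondences of degrees `e ≥ ν` from all varieties `Y` to `A`. -/
def coniveau (W : WeilCohomology.{u, 0} ops) (A : 𝒱.Obj) (ν : ℕ) : Submodule W.K (W.H A) :=
  imageSpan (fun Y => correspondences W Y A) ν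

/-- **The generalized Tate conjecture** for `A` over the field with `q` elements and its finite
extensions, in all degrees and for all coniveaus; `σ` is the Frobenius. -/
def GeneralizedTate (q : ℕ) (A : GVar W Γ) (σ : Γ) : Prop :=
  AllEffective (linAction A.act σ) q (W.gr A.X) (coniveau W A.X)

/-- `Z` and the `X i` are members of a class `G` of varieties with an action of the group `Γ` on
the cohomology with the properties of a Galois action, `G` is closed under products, the element `σ`
(the Frobenius) acts as `q = |κ|` on the Tate twist, the coverings `C i` are large, of different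
degrees `N` with `c ≡ 1` modulo `N`, the `X i`, with the action of `σ` and an automorphism `g`, are
models of the `C i` (`IsCoveringCohomology`) with a cycle of degree `1` of dimension `0` (a point),
and the eigenvalues of `σ` on the cohomology of `Z` are algebraic integers of degree at most `m`
over `ℚ`. -/
structure IsSystem {κ : Type} [Field κ] [Fintype κ] {ι : Type} [Fintype ι]
    (C : ι → Covering κ) (c m : ℕ) (χ : Γ →* W.Kˣ) (G : Set (GVar W Γ)) (X : ι → GVar W Γ)
    (Z : GVar W Γ) (σ : Γ) (τ : W.K →+* ℂ) : Prop where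
  galois : GaloisClass χ G
  mem : ∀ i, X i ∈ G
  mem_base : Z ∈ G
  cyclotomic : MapsTo χ σ (Fintype.card κ)
  large : ∀ i, IsLarge (C i) m
  different : ∀ i j, i ≠ j → (C i).N ≠ (C j).N
  congruent : ∀ i, c % (C i).N = 1
  model : ∀ i, ∃ g : (X i).X ⟶ (X i).X, IsCoveringCohomology (C i) (algSpan W (X i).X)
    (linAction (X i).act σ) (pullback g) τ
  point : ∀ i, HasDegreeOne (W.tr (X i).X) (algClasses W (X i).X (X i).X.dim)
  base : IntegralOfDegree m (eigenvalues (linAction Z.act σ) τ)

end Pool.Agent.U222.GT
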