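import Pool.Agent.U222.GT.Main
import Pool.Agent.U222.GT.Ari

/-!
# The generalized Tate conjecture for products with cyclic coverings: the theorem
-/

set_option autoImplicit false

open CategoryTheory AlgebraicGeometry
open scoped TensorProduct

universe u

namespace Pool.Agent.U222.GT

open Pool.Agent.H914 Pool.Agent.H914.VarClass Pool.Agent.H914.VarClass.Obj
  Pool.Agent.H914.WeilCohomology Pool.Agent.H281R3.HT Pool.Agent.W552 Pool.Agent.TH125.Gal
  Pool.Agent.TH132.A Pool.Agent.N876.FL Pool.Agent.U222.SL.Mot Pool.Agent.U222.SL.Mo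
  Pool.Agent.U222.SL.Geo

variable {k : Type u} [Field k] {𝒱 : VarClass k} {ops : CycleOps 𝒱}
  {W : WeilCohomology.{u, 0} ops} {Γ : Type} [Group Γ] {χ : Γ →* W.Kˣ}

theorem exists_gsys (c : ℕ) [Fact c.Prime] (κ : Type) [Field κ] [Fintype κ] [CharP κ c] {ι : Type}
    [Fintype ι] (C : ι → Covering κ) (f m : ℕ) (hf : Fintype.card κ = c ^ f)
    {G : Set (GVar W Γ)} {X : ι → GVar W Γ} {Z : GVar W Γ} {σ : Γ}
    {τ : W.K →+* ℂ} (h : IsSystem C c m χ G X Z σ τ) :
    ∃ S : ι → Set W.K, GSys (Fintype.card κ) χ G X Z σ S := by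
  classical
  obtain ⟨hG, hmem, hmemZ, hχ, hlarge, hne, hone', hmodel, hpt, hbase⟩ := h
  have hpr : ∀ i, (C i).N.Prime := fun i => (hlarge i).prime
  choose g T' hσT hgT hT' hcov hpure using hmodel
  have hcov' : ∀ i, Pool.Agent.N876.TC.IsCov (C i).N (C i).l (C i).a (C i).z
      ((linAction (X i).act σ).restrict (hσT i)) ((pullback (g i)).restrict (hgT i)) :=
    fun i => ⟨(hcov i).commute, (hcov i).order, (hcov i).invariants,
      fun L _ _ _ t => (hcov i).lefschetz L t⟩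
  refine ⟨fun i => {α | Module.End.HasEigenvalue ((linAction (X i).act σ).restrict (hσT i)) α},
    { gal := hG, mem := hmem, memZ := hmemZ, cyc := hχ
      cv := fun i => ⟨T' i, hσT i, hT' i, fun α hα => hα⟩
      point := hpt
      ar := ?_ }⟩
  intro I α hα β hβ ν hint
  have h1 : ∀ i, ∃ (T'' : Type) (_ : AddCommGroup T'') (_ : Module ℂ T'')
      (_ : FiniteDimensional ℂ T'') (Φ' τ' : Module.End ℂ T''),
        Pool.Agent.N876.TC.IsCov (C i).N (C i).l (C i).a (C i).z Φ' τ' ∧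
        ∀ α, Module.End.HasEigenvalue ((linAction (X i).act σ).restrict (hσT i)) α →
          Φ'.HasEigenvalue (τ α) :=
    fun i => exists_bc (hpr i).pos (hcov' i) τ
  choose T'' i1 i2 i3 Φ' τ' h2 h3 using h1
  obtain ⟨hβ1, hβ2⟩ := hbase (τ β) ⟨β, hβ, rfl⟩
  have hinj : Function.Injective τ.toIntAlgHom := τ.injective
  have h4 : IsIntegral ℤ ((∏ i ∈ I, τ (α i)) * τ β / (Fintype.card κ : ℂ) ^ ν) := by
    have h5 := hint.map τ.toIntAlgHom
    have h6 : τ.toIntAlgHom ((∏ i ∈ I, α i) * β / (Fintype.card κ : W.K) ^ ν) =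
        (∏ i ∈ I, τ (α i)) * τ β / (Fintype.card κ : ℂ) ^ ν := by
      show τ _ = _
      rw [map_div₀, map_mul, map_prod, map_pow, map_natCast]
    rwa [h6] at h5
  have h5 := integral_quot κ hf (fun i => (hlarge i).root) (fun i => (C i).l)
    (fun i => (C i).a) (fun i => (hlarge i).coprime) h2 hpr hne
    (fun i => by rw [hone' i, Nat.mod_eq_of_lt (hpr i).one_lt]) (fun i => (hlarge i).sum)
    (m := m) (fun i => (hlarge i).large) (I := I) (α := fun i => τ (α i))
    (fun i hi => h3 i _ (hα i hi)) (fun i hi => hpure i _ (hα i hi)) hβ1 hβ2 h4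
  have h6 : IsIntegral ℤ (τ.toIntAlgHom (β / (Fintype.card κ : W.K) ^ ν)) := by
    have h7 : τ.toIntAlgHom (β / (Fintype.card κ : W.K) ^ ν) =
        τ β / (Fintype.card κ : ℂ) ^ ν := by
      show τ _ = _
      rw [map_div₀, map_pow, map_natCast]
    rw [h7]
    exact h5
  exact (isIntegral_algHom_iff τ.toIntAlgHom hinj).1 h6

/-- multiplication with the class of a cycle -/
theorem alg_con {X : 𝒱.Obj} {j : ℕ} {a : W.H X} (ha : a ∈ algClasses W X j) :
    a ∈ coniveau W X j := by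
  have h1 : IsCorrespondence W X X j (W.corr (W.push (diag X) a)) :=
    isCorr_of (r := X.dim + j) (by push_cast; ring) (alg_push _ ha (by simp only [dim_prod]; ring))
  have h2 := mem_con (ν := j) (le_refl _) h1 1
  rwa [corr_diag, mul_one] at h2

variable [IsAlgClosed W.K]

/-- the conjecture is true if all classes are algebraic -/
theorem gt_alg {A : GVar W Γ} (hA : IsGaloisVar χ A) {q : ℕ} (hq : 1 < q) {σ : Γ}
    (hσ : ((χ σ : W.Kˣ) : W.K) = (q : W.K)) (h : algSpan W A.X = ⊤) : GT' q A σ := by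
  intro ν β hβ
  have hq0 : (q : W.K) ≠ 0 := by rw [← hσ]; exact Units.ne_zero _
  have h1 : (op A σ).maxGenEigenspace β ≤
      ⨆ j, ⨆ (_ : ∃ m : ℕ, 0 < m ∧ β ^ m = ((χ σ : W.Kˣ) : W.K) ^ (m * j)),
        Submodule.span W.K (algClasses W A.X j) ⊓ (op A σ).maxGenEigenspace β := by
    refine eq_of_iSup (W := fun β => ⨆ j, ⨆ (_ : ∃ m : ℕ, 0 < m ∧
      β ^ m = ((χ σ : W.Kˣ) : W.K) ^ (m * j)), Submodule.span W.K (algClasses W A.X j) ⊓
        (op A σ).maxGenEigenspace β) (fun β => iSup₂_le fun j _ => inf_le_right)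
      (Module.End.independent_maxGenEigenspace _) ?_ β
    rw [eq_top_iff, ← h]
    refine Submodule.span_le.2 fun x hx => ?_
    obtain ⟨j, hj⟩ := Set.mem_iUnion.1 hx
    have h2 := alg_pieces hA σ j (Submodule.subset_span hj)
    have h3 : (⨆ γ, ⨆ (_ : ∃ m : ℕ, 0 < m ∧ γ ^ m = ((χ σ : W.Kˣ) : W.K) ^ (m * j)),
        Submodule.span W.K (algClasses W A.X j) ⊓ (op A σ).maxGenEigenspace γ) ≤
        ⨆ γ, ⨆ j, ⨆ (_ : ∃ m : ℕ, 0 < m ∧ γ ^ m = ((χ σ : W.Kˣ) : W.K) ^ (m * j)),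
        Submodule.span W.K (algClasses W A.X j) ⊓ (op A σ).maxGenEigenspace γ :=
      iSup_mono fun γ => le_iSup_of_le j le_rfl
    exact h3 h2
  refine h1.trans (iSup₂_le fun j hj => inf_le_left.trans ?_)
  obtain ⟨m, hm, hβm⟩ := hj
  rw [hσ] at hβm
  have hνj : ν ≤ j := by
    by_contra hcon
    push Not at hcon
    have h2 := hβ.pow m
    have h3 : (β / (q : W.K) ^ ν) ^ m = (((1 : ℚ) / (q : ℚ) ^ (m * (ν - j)) : ℚ) : W.K) := by
      rw [div_pow, hβm]
      push_cast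
      obtain ⟨t, rfl⟩ := Nat.exists_eq_add_of_le hcon.le
      rw [Nat.add_sub_cancel_left, ← pow_mul, div_eq_div_iff (pow_ne_zero _ hq0)
        (pow_ne_zero _ hq0), one_mul, ← pow_add]
      congr 1
      ring
    rw [h3] at h2
    have h4 : IsIntegral ℤ ((1 : ℚ) / (q : ℚ) ^ (m * (ν - j))) :=
      (isIntegral_algHom_iff ((algebraMap ℚ W.K).toIntAlgHom) (algebraMap ℚ W.K).injective).1 (by
        show IsIntegral ℤ (algebraMap ℚ W.K _)
        rw [eq_ratCast]
        exact h2)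
    obtain ⟨n, hn⟩ := IsIntegrallyClosed.isIntegral_iff.1 h4
    have h5 : (n : ℚ) = 1 / (q : ℚ) ^ (m * (ν - j)) := hn
    have hq1 : (1 : ℚ) < (q : ℚ) ^ (m * (ν - j)) :=
      one_lt_pow₀ (by exact_mod_cast hq) (Nat.mul_ne_zero hm.ne' (by omega))
    have h6 : (0 : ℚ) < n := by rw [h5]; positivity
    have h7 : (n : ℚ) < 1 := by rw [h5]; exact (div_lt_one (by linarith)).2 hq1
    have h8 : (0 : ℤ) < n := by exact_mod_cast h6
    have h9 : n < 1 := by exact_mod_cast h7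
    omega
  exact (Submodule.span_le.2 fun a ha => alg_con ha).trans (con_mono hνj)

/-- **The theorem.** -/
theorem gtc_main (c : ℕ) [Fact c.Prime] (κ : Type) [Field κ] [Fintype κ] [CharP κ c] {ι : Type}
    [Fintype ι] (C : ι → Covering κ) (f m : ℕ) (hf : Fintype.card κ = c ^ f)
    {G : Set (GVar W Γ)} {X : ι → GVar W Γ} {Z : GVar W Γ} {σ : Γ}
    {τ : W.K →+* ℂ} (h : IsSystem C c m χ G X Z σ τ) {L : List ι} {V : GVar W Γ} (hL : L.Nodup)
    (hV : IsProductOver G X Z L V) :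
    (GeneralizedTate (Fintype.card κ) V σ ↔ GeneralizedTate (Fintype.card κ) Z σ) ∧
      (algSpan W Z.X = ⊤ → GeneralizedTate (Fintype.card κ) V σ) := by
  obtain ⟨S, hS⟩ := exists_gsys c κ C f m hf h
  have h1 := main_iff hS hV hL
  refine ⟨h1, fun ha => h1.2 ?_⟩
  rw [gt_iff (hS.gal.galois _ hS.memZ)]
  exact gt_alg (hS.gal.galois _ hS.memZ) Fintype.one_lt_card hS.cyc ha

end Pool.Agent.U222.GT
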