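import Mathlib

/-!
# Generalized eigenspaces: stable subspaces, powers, tensor products
-/

set_option autoImplicit false

namespace Pool.Agent.U222.GT

open scoped TensorProduct

section

variable {K V : Type} [Field K] [AddCommGroup V] [Module K V]

/-- an eigenvector in a stable subspace -/
theorem exists_eigvec (F : Module.End K V) {U : Submodule K V} (hU : ∀ x ∈ U, F x ∈ U) {γ : K}
    {x : V} (hx : x ∈ U) (hx0 : x ≠ 0) (hxg : x ∈ F.maxGenEigenspace γ) :
    ∃ y ∈ U, y ≠ 0 ∧ F y = γ • y := by
  have h : ∀ k : ℕ, ∀ x ∈ U, x ≠ 0 → ((F - γ • (1 : Module.End K V)) ^ k) x = 0 →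
      ∃ y ∈ U, y ≠ 0 ∧ F y = γ • y := by
    intro k
    induction k with
    | zero =>
      intro x _ hx0 hk
      rw [pow_zero, Module.End.one_apply] at hk
      exact absurd hk hx0
    | succ k ih =>
      intro x hx hx0 hk
      by_cases h1 : (F - γ • (1 : Module.End K V)) x = 0
      · refine ⟨x, hx, hx0, ?_⟩
        rw [LinearMap.sub_apply, LinearMap.smul_apply, Module.End.one_apply, sub_eq_zero] at h1
        exact h1
      · refine ih _ ?_ h1 ?_
        · rw [LinearMap.sub_apply, LinearMap.smul_apply, Module.End.one_apply]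
          exact U.sub_mem (hU x hx) (U.smul_mem _ hx)
        · rw [← Module.End.mul_apply, ← pow_succ]
          exact hk
  obtain ⟨k, hk⟩ := (Module.End.mem_maxGenEigenspace F γ x).1 hxg
  exact h k x hx hx0 hk

/-- the eigenvector of a generalized eigenspace -/
theorem eig_of_maxGen (F : Module.End K V) {γ : K} (h : F.maxGenEigenspace γ ≠ ⊥) :
    F.HasEigenvalue γ := by
  obtain ⟨x, hx, hx0⟩ := (Submodule.ne_bot_iff _).1 h
  obtain ⟨y, -, hy0, hy⟩ := exists_eigvec F (U := ⊤) (fun _ _ => Submodule.mem_top)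
    Submodule.mem_top hx0 hx
  exact Module.End.hasEigenvalue_of_hasEigenvector
    (Module.End.hasEigenvector_iff.2 ⟨Module.End.mem_eigenspace_iff.2 hy, hy0⟩)

theorem le_iSup_of_eig [IsAlgClosed K] [FiniteDimensional K V] (F : Module.End K V)
    {U : Submodule K V} (hU : ∀ x ∈ U, F x ∈ U) {p : K → Prop}
    (h : ∀ γ, ∀ x ∈ U, x ≠ 0 → F x = γ • x → p γ) :
    U ≤ ⨆ γ, ⨆ (_ : p γ), U ⊓ F.maxGenEigenspace γ := by
  have h1 : U = ⨆ γ, U ⊓ F.maxGenEigenspace γ := by
    have h2 := Submodule.inf_iSup_genEigenspace (p := U) (f := F) hU ⊤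
    have h3 : ⨆ μ, F.genEigenspace μ ⊤ = ⊤ := Module.End.iSup_maxGenEigenspace_eq_top F
    rw [h3, inf_top_eq] at h2
    exact h2
  conv_lhs => rw [h1]
  refine iSup_le fun γ => ?_
  by_cases hp : p γ
  · exact le_iSup₂_of_le γ hp le_rfl
  · intro x hx
    have h2 : x = 0 := by
      by_contra hx0
      obtain ⟨y, hy, hy0, hyF⟩ := exists_eigvec F hU hx.1 hx0 hx.2
      exact hp (h γ y hy hy0 hyF)
    rw [h2]
    exact Submodule.zero_mem _

theorem pow_apply_of_eig {F : Module.End K V} {γ : K} {x : V} (h : F x = γ • x) (m : ℕ) :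
    (F ^ m) x = γ ^ m • x := by
  induction m with
  | zero => rw [pow_zero, pow_zero, one_smul, Module.End.one_apply]
  | succ m ih => rw [pow_succ', Module.End.mul_apply, ih, map_smul, h, smul_smul, ← pow_succ]

theorem eq_of_maxGen {F : Module.End K V} {γ α : K} {x : V} (h : F x = γ • x) (hx0 : x ≠ 0)
    (hx : x ∈ F.maxGenEigenspace α) : γ = α := by
  obtain ⟨k, hk⟩ := (Module.End.mem_maxGenEigenspace F α x).1 hx
  have h1 : (F - α • (1 : Module.End K V)) x = (γ - α) • x := by
    rw [LinearMap.sub_apply, LinearMap.smul_apply, Module.End.one_apply, h, sub_smul]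
  rw [pow_apply_of_eig h1] at hk
  exact sub_eq_zero.1 (eq_zero_of_pow_eq_zero ((smul_eq_zero.1 hk).resolve_right hx0))

/-- stable subspaces for a power -/
theorem le_iSup_of_pow [IsAlgClosed K] [FiniteDimensional K V] (F : Module.End K V) {m : ℕ}
    {U : Submodule K V} (hU : ∀ x ∈ U, (F ^ m) x ∈ U) {p' p : K → Prop}
    (h : ∀ γ, ∀ x ∈ U, x ≠ 0 → (F ^ m) x = γ • x → p' γ) (hp : ∀ γ, p' (γ ^ m) → p γ) :
    U ≤ ⨆ γ, ⨆ (_ : p γ), F.maxGenEigenspace γ := by
  refine (le_iSup_of_eig (F ^ m) hU h).trans (iSup₂_le fun α hα => inf_le_right.trans ?_)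
  have h1 : ∀ x ∈ (F ^ m).maxGenEigenspace α, F x ∈ (F ^ m).maxGenEigenspace α :=
    Module.End.mapsTo_maxGenEigenspace_of_comm ((Commute.refl F).pow_left m) α
  refine (le_iSup_of_eig F h1 (p := fun γ => γ ^ m = α) ?_).trans
    (iSup₂_le fun γ hγ => inf_le_right.trans ?_)
  · intro γ x hx hx0 hxF
    exact eq_of_maxGen (pow_apply_of_eig hxF m) hx0 hx
  · exact le_iSup₂_of_le γ (hp γ (by rw [hγ]; exact hα)) le_rfl

theorem eq_of_iSup {ι : Type} {W E : ι → Submodule K V} (hW : ∀ i, W i ≤ E i)
    (hE : iSupIndep E) (htop : ⨆ i, W i = ⊤) (i : ι) : E i ≤ W i := by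
  intro x hx
  have h1 : x ∈ ⨆ i, W i := by rw [htop]; trivial
  rw [iSup_split_single _ i] at h1
  obtain ⟨w, hw, w', hw', rfl⟩ := Submodule.mem_sup.1 h1
  have h2 : w' ∈ ⨆ (j) (_ : j ≠ i), E j := (iSup₂_mono fun j _ => hW j) hw'
  have h3 : w' ∈ E i := by
    have := (E i).sub_mem hx (hW i hw)
    rwa [add_sub_cancel_left] at this
  have h4 : w' = 0 := (Submodule.disjoint_def.1 (hE i)) w' h3 h2
  rw [h4, add_zero]
  exact hw

end

section

variable {K V V' : Type} [Field K] [AddCommGroup V] [Module K V] [AddCommGroup V'] [Module K V']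

theorem tensor_ker (F : Module.End K V) (G : Module.End K V') (α β : K) (N : ℕ) :
    ∀ i j : ℕ, i + j ≤ N → ∀ (a : V) (b : V'), ((F - α • (1 : Module.End K V)) ^ i) a = 0 →
      ((G - β • (1 : Module.End K V')) ^ j) b = 0 →
      ((TensorProduct.map F G - (α * β) • (1 : Module.End K (V ⊗[K] V'))) ^ N) (a ⊗ₜ[K] b) = 0 := by
  induction N with
  | zero =>
    intro i j hij a b ha _
    have hi : i = 0 := by omega
    rw [hi, pow_zero, Module.End.one_apply] at ha
    rw [ha, TensorProduct.zero_tmul, map_zero]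
  | succ N ih =>
    intro i j hij a b ha hb
    cases i with
    | zero =>
      rw [pow_zero, Module.End.one_apply] at ha
      rw [ha, TensorProduct.zero_tmul, map_zero]
    | succ i =>
      cases j with
      | zero =>
        rw [pow_zero, Module.End.one_apply] at hb
        rw [hb, TensorProduct.tmul_zero, map_zero]
      | succ j =>
        rw [pow_succ, Module.End.mul_apply]
        have h1 : (TensorProduct.map F G - (α * β) • (1 : Module.End K (V ⊗[K] V'))) (a ⊗ₜ[K] b) =
            ((F - α • (1 : Module.End K V)) a) ⊗ₜ[K] (G b) +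
              (α • a) ⊗ₜ[K] ((G - β • (1 : Module.End K V')) b) := by
          simp only [LinearMap.sub_apply, LinearMap.smul_apply, Module.End.one_apply,
            TensorProduct.map_tmul, TensorProduct.sub_tmul, TensorProduct.tmul_sub,
            TensorProduct.smul_tmul', TensorProduct.tmul_smul, mul_smul]
          rw [smul_comm β α]
          abel
        rw [h1, map_add]
        have hGc : Commute ((G - β • (1 : Module.End K V')) ^ (j + 1)) G := by
          refine Commute.pow_left ?_ _
          exact (Commute.refl G).sub_left ((Commute.one_left G).smul_left β)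
        rw [ih i (j + 1) (by omega) _ (G b) (by
            rw [← Module.End.mul_apply, ← pow_succ]; exact ha) (by
            rw [← Module.End.mul_apply, hGc.eq, Module.End.mul_apply, hb, map_zero]),
          ih (i + 1) j (by omega) (α • a) _ (by rw [map_smul, ha, smul_zero]) (by
            rw [← Module.End.mul_apply, ← pow_succ]; exact hb), add_zero]

theorem tensor_gen {F : Module.End K V} {G : Module.End K V'} {α β : K} {a : V} {b : V'}
    (ha : a ∈ F.maxGenEigenspace α) (hb : b ∈ G.maxGenEigenspace β) :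
    a ⊗ₜ[K] b ∈ Module.End.maxGenEigenspace (TensorProduct.map F G) (α * β) := by
  obtain ⟨i, hi⟩ := (Module.End.mem_maxGenEigenspace F α a).1 ha
  obtain ⟨j, hj⟩ := (Module.End.mem_maxGenEigenspace G β b).1 hb
  exact (Module.End.mem_maxGenEigenspace _ _ _).2
    ⟨i + j, tensor_ker F G α β (i + j) i j le_rfl a b hi hj⟩

/-- transport along an equivariant map -/
theorem map_gen {F : Module.End K V} {G : Module.End K V'} (θ : V →ₗ[K] V')
    (h : ∀ x, G (θ x) = θ (F x)) {γ : K} {x : V} (hx : x ∈ F.maxGenEigenspace γ) :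
    θ x ∈ G.maxGenEigenspace γ := by
  obtain ⟨k, hk⟩ := (Module.End.mem_maxGenEigenspace F γ x).1 hx
  refine (Module.End.mem_maxGenEigenspace _ _ _).2 ⟨k, ?_⟩
  have h1 : ∀ k : ℕ, ∀ x, ((G - γ • (1 : Module.End K V')) ^ k) (θ x) =
      θ (((F - γ • (1 : Module.End K V)) ^ k) x) := by
    intro k
    induction k with
    | zero => intro x; rfl
    | succ k ih =>
      intro x
      rw [pow_succ, Module.End.mul_apply, pow_succ, Module.End.mul_apply, ← ih]
      congr 1
      simp only [LinearMap.sub_apply, LinearMap.smul_apply, Module.End.one_apply, h, map_sub,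
        map_smul]
  rw [h1, hk, map_zero]

/-- the generalized eigenspaces of a tensor product, for a family of pieces of the first factor -/
theorem tensor_decomp [IsAlgClosed K] [FiniteDimensional K V'] {F : Module.End K V}
    {G : Module.End K V'} {C : Set (V × K)} (hC : ∀ a α, (a, α) ∈ C → a ∈ F.maxGenEigenspace α)
    (hspan : Submodule.span K {a | ∃ α, (a, α) ∈ C} = ⊤) (γ : K) :
    Module.End.maxGenEigenspace (TensorProduct.map F G) γ ≤
      Submodule.span K {t | ∃ a α b β, (a, α) ∈ C ∧ b ∈ G.maxGenEigenspace β ∧ α * β = γ ∧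
        t = a ⊗ₜ[K] b} := by
  refine eq_of_iSup (W := fun γ => Submodule.span K {t | ∃ a α b β, (a, α) ∈ C ∧
    b ∈ G.maxGenEigenspace β ∧ α * β = γ ∧ t = a ⊗ₜ[K] b}) ?_
    (Module.End.independent_maxGenEigenspace _) ?_ γ
  · intro γ
    refine Submodule.span_le.2 ?_
    rintro _ ⟨a, α, b, β, ha, hb, rfl, rfl⟩
    exact tensor_gen (hC a α ha) hb
  · rw [eq_top_iff]
    rintro t -
    induction t using TensorProduct.induction_on with
    | zero => exact Submodule.zero_mem _
    | add x y hx hy => exact Submodule.add_mem _ hx hy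
    | tmul a b =>
      have ha : a ∈ Submodule.span K {a | ∃ α, (a, α) ∈ C} := by rw [hspan]; trivial
      induction ha using Submodule.span_induction with
      | zero => rw [TensorProduct.zero_tmul]; exact Submodule.zero_mem _
      | add x y _ _ hx hy => rw [TensorProduct.add_tmul]; exact Submodule.add_mem _ hx hy
      | smul r x _ hx => rw [← TensorProduct.smul_tmul']; exact Submodule.smul_mem _ _ hx
      | mem a ha =>
        obtain ⟨α, ha⟩ := ha
        have hb : b ∈ ⨆ β, G.maxGenEigenspace β := by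
          rw [Module.End.iSup_maxGenEigenspace_eq_top]; trivial
        refine Submodule.iSup_induction _ (motive := fun b => a ⊗ₜ[K] b ∈ ⨆ γ, Submodule.span K
          {t | ∃ a α b β, (a, α) ∈ C ∧ b ∈ G.maxGenEigenspace β ∧ α * β = γ ∧ t = a ⊗ₜ[K] b}) hb
          ?_ ?_ ?_
        · intro β b hb
          exact Submodule.mem_iSup_of_mem (α * β) (Submodule.subset_span
            ⟨a, α, b, β, ha, hb, rfl, rfl⟩)
        · rw [TensorProduct.tmul_zero]; exact Submodule.zero_mem _
        · intro x y hx hy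
          rw [TensorProduct.tmul_add]; exact Submodule.add_mem _ hx hy

end

end Pool.Agent.U222.GT
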