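import Pool.Agent.U222.GT.Cnv
import Pool.Agent.U222.GT.Gen

/-!
# The generalized Tate conjecture for products: the main steps
-/

set_option autoImplicit false

open CategoryTheory AlgebraicGeometry
open scoped TensorProduct

universe u

namespace Pool.Agent.U222.GT

open Pool.Agent.H914 Pool.Agent.H914.VarClass Pool.Agent.H914.VarClass.Obj
  Pool.Agent.H914.WeilCohomology Pool.Agent.H281R3.HT Pool.Agent.W552 Pool.Agent.TH125.Gal
  Pool.Agent.TH132.A Pool.Agent.N876.FL Pool.Agent.U222.SL.Mot Pool.Agent.U222.SL.Mo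

variable {k : Type u} [Field k] {𝒱 : VarClass k} {ops : CycleOps 𝒱}
  {W : WeilCohomology.{u, 0} ops} {Γ : Type} [Group Γ] {χ : Γ →* W.Kˣ}

/-- the conjecture in terms of the generalized eigenspaces -/
def GT' (q : ℕ) (A : GVar W Γ) (σ : Γ) : Prop :=
  ∀ (ν : ℕ) (β : W.K), IsIntegral ℤ (β / (q : W.K) ^ ν) →
    (op A σ).maxGenEigenspace β ≤ coniveau W A.X ν

variable [IsAlgClosed W.K]

theorem gt_iff {A : GVar W Γ} (hA : IsGaloisVar χ A) {q : ℕ} {σ : Γ} :
    GeneralizedTate q A σ ↔ GT' q A σ := by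
  have hF : linAction A.act σ = op A σ := rfl
  constructor
  · intro h ν β hβ
    have h1 : (op A σ).maxGenEigenspace β ≤
        ⨆ i, W.gr A.X i ⊓ (op A σ).maxGenEigenspace β := by
      refine eq_of_iSup (W := fun β => ⨆ i, W.gr A.X i ⊓ (op A σ).maxGenEigenspace β)
        (fun β => iSup_le fun i => inf_le_right) (Module.End.independent_maxGenEigenspace _) ?_ β
      rw [iSup_comm]
      have h2 : ∀ i, ⨆ β, W.gr A.X i ⊓ (op A σ).maxGenEigenspace β = W.gr A.X i := by
        intro i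
        have h3 := Submodule.inf_iSup_genEigenspace (p := W.gr A.X i) (f := op A σ)
          (fun x hx => hA.gr_mem σ i x hx) ⊤
        have h4 : ⨆ μ, (op A σ).genEigenspace μ ⊤ = ⊤ :=
          Module.End.iSup_maxGenEigenspace_eq_top (op A σ)
        rw [h4, inf_top_eq] at h3
        exact h3.symm
      simp only [h2]
      exact (W.isInternal A.X).submodule_iSup_eq_top
    refine h1.trans (iSup_le fun i => ?_)
    refine h i ν 1 one_pos _ inf_le_left ⟨?_, ?_⟩
    · intro x hx
      rw [pow_one, hF]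
      exact ⟨hA.gr_mem σ i x hx.1,
        Module.End.mapsTo_maxGenEigenspace_of_comm (Commute.refl (op A σ)) β hx.2⟩
    · intro α x hx hx0 hxα
      rw [pow_one, hF] at hxα
      rw [pow_one, eq_of_maxGen hxα hx0 hx.2]
      exact hβ
  · intro h i ν m hm U _ hU
    have h1 := le_iSup_of_pow (op A σ) (m := m) (U := U) hU.1
      (p' := fun γ => IsIntegral ℤ (γ / ((q ^ m : ℕ) : W.K) ^ ν))
      (p := fun γ => IsIntegral ℤ (γ / (q : W.K) ^ ν)) (fun γ x hx hx0 hxγ => hU.2 γ x hx hx0 hxγ)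
      (fun γ hγ => by
        refine IsIntegral.of_pow hm ?_
        rw [div_pow, ← pow_mul, mul_comm ν m, pow_mul]
        push_cast at hγ
        exact hγ)
    exact h1.trans (iSup₂_le fun γ hγ => h ν γ hγ)

/-- the classes of cycles of one codimension -/
theorem alg_pieces {A : GVar W Γ} (hA : IsGaloisVar χ A) (σ : Γ) (j : ℕ) :
    Submodule.span W.K (algClasses W A.X j) ≤
      ⨆ γ, ⨆ (_ : ∃ m : ℕ, 0 < m ∧ γ ^ m = ((χ σ : W.Kˣ) : W.K) ^ (m * j)),
        Submodule.span W.K (algClasses W A.X j) ⊓ (op A σ).maxGenEigenspace γ := by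
  have hst : ∀ x ∈ Submodule.span W.K (algClasses W A.X j),
      op A σ x ∈ Submodule.span W.K (algClasses W A.X j) := by
    intro x hx
    induction hx using Submodule.span_induction with
    | mem x hx =>
      obtain ⟨c', hc', h⟩ := hA.cl_act σ j x hx
      have h1 : op A σ x = ((χ σ : W.Kˣ) : W.K) ^ j • c' := h
      rw [h1]
      exact Submodule.smul_mem _ _ (Submodule.subset_span hc')
    | zero => rw [map_zero]; exact Submodule.zero_mem _
    | add x y _ _ hx hy => rw [map_add]; exact Submodule.add_mem _ hx hy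
    | smul r x _ hx => rw [map_smul]; exact Submodule.smul_mem _ _ hx
  have hpow : ∀ x ∈ Submodule.span W.K (algClasses W A.X j), ∃ m : ℕ, 0 < m ∧
      ((op A σ) ^ m) x = ((χ σ : W.Kˣ) : W.K) ^ (m * j) • x := by
    have hmul : ∀ x (m n : ℕ), ((op A σ) ^ m) x = ((χ σ : W.Kˣ) : W.K) ^ (m * j) • x →
        ((op A σ) ^ (m * n)) x = ((χ σ : W.Kˣ) : W.K) ^ (m * n * j) • x := by
      intro x m n h
      rw [pow_mul, pow_apply_of_eig h, ← pow_mul]
      congr 2
      ring
    intro x hx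
    induction hx using Submodule.span_induction with
    | mem x hx => exact pow_class hA σ hx
    | zero => exact ⟨1, one_pos, by rw [map_zero, smul_zero]⟩
    | add x y _ _ hx hy =>
      obtain ⟨m, hm, h⟩ := hx
      obtain ⟨n, hn, h'⟩ := hy
      refine ⟨m * n, Nat.mul_pos hm hn, ?_⟩
      have h2 := hmul y n m h'
      rw [mul_comm n m] at h2
      rw [map_add, hmul x m n h, h2, smul_add]
    | smul r x _ hx =>
      obtain ⟨m, hm, h⟩ := hx
      exact ⟨m, hm, by rw [map_smul, h, smul_comm]⟩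
  refine le_iSup_of_eig (op A σ) hst fun γ x hx hx0 hxγ => ?_
  obtain ⟨m, hm, h⟩ := hpow x hx
  refine ⟨m, hm, ?_⟩
  rw [pow_apply_of_eig hxγ, ← sub_eq_zero, ← sub_smul] at h
  exact sub_eq_zero.1 ((smul_eq_zero.1 h).resolve_right hx0)

/-- the pieces of the first factor -/
def pieces (χ : Γ →* W.Kˣ) (A : GVar W Γ) (σ : Γ) (S : Set W.K) : Set (W.H A.X × W.K) :=
  {p | p.1 ∈ (op A σ).maxGenEigenspace p.2 ∧
    ((∃ j, p.1 ∈ Submodule.span W.K (algClasses W A.X j) ∧
      ∃ m : ℕ, 0 < m ∧ p.2 ^ m = ((χ σ : W.Kˣ) : W.K) ^ (m * j)) ∨ p.2 ∈ S)}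

theorem pieces_span {A : GVar W Γ} (hA : IsGaloisVar χ A) {σ : Γ} {S : Set W.K}
    (hS : Cv A σ S) : Submodule.span W.K {a | ∃ α, (a, α) ∈ pieces χ A σ S} = ⊤ := by
  obtain ⟨T, hT, hPT, hTS⟩ := hS.ex
  rw [eq_top_iff, ← hPT]
  refine sup_le ?_ ?_
  · refine Submodule.span_le.2 fun x hx => ?_
    obtain ⟨j, hj⟩ := Set.mem_iUnion.1 hx
    have h1 := alg_pieces hA σ j (Submodule.subset_span hj)
    have h2 : (⨆ γ, ⨆ (_ : ∃ m : ℕ, 0 < m ∧ γ ^ m = ((χ σ : W.Kˣ) : W.K) ^ (m * j)),
        Submodule.span W.K (algClasses W A.X j) ⊓ (op A σ).maxGenEigenspace γ) ≤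
        Submodule.span W.K {a | ∃ α, (a, α) ∈ pieces χ A σ S} := by
      refine iSup₂_le fun γ hγ y hy => Submodule.subset_span ⟨γ, hy.2, Or.inl ⟨j, hy.1, hγ⟩⟩
    exact h2 h1
  · have h1 := le_iSup_of_eig (op A σ) (U := T) hT (p := fun γ => γ ∈ S)
      (fun γ x hx hx0 hxγ => hTS γ (Module.End.hasEigenvalue_of_hasEigenvector (x := ⟨x, hx⟩)
        (Module.End.hasEigenvector_iff.2 ⟨Module.End.mem_eigenspace_iff.2 (Subtype.ext hxγ),
          fun h0 => hx0 (congrArg Subtype.val h0)⟩)))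
    exact h1.trans (iSup₂_le fun γ hγ y hy => Submodule.subset_span ⟨γ, hy.2, Or.inr hγ⟩)

/-- the generalized eigenspaces of a product -/
theorem prod_gen {A B : GVar W Γ} {υ : Γ →* (W.H (A.X.prod B.X) ≃ₐ[W.K] W.H (A.X.prod B.X))}
    (h1 : Equivariant (A := ⟨A.X.prod B.X, υ⟩) (B := A) (fst A.X B.X))
    (h2 : Equivariant (A := ⟨A.X.prod B.X, υ⟩) (B := B) (snd A.X B.X)) {σ : Γ}
    {C : Set (W.H A.X × W.K)} (hC : ∀ a α, (a, α) ∈ C → a ∈ (op A σ).maxGenEigenspace α)
    (hspan : Submodule.span W.K {a | ∃ α, (a, α) ∈ C} = ⊤) {γ : W.K}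
    {M : Submodule W.K (W.H (A.X.prod B.X))}
    (h : ∀ a α b β, (a, α) ∈ C → b ∈ (op B σ).maxGenEigenspace β → α * β = γ → ext W a b ∈ M) :
    (op (⟨A.X.prod B.X, υ⟩ : GVar W Γ) σ).maxGenEigenspace γ ≤ M := by
  intro z hz
  set θ := LinearEquiv.ofBijective _ (W.kunneth A.X B.X) with hθ
  have h3 : ∀ u, op (⟨A.X.prod B.X, υ⟩ : GVar W Γ) σ (θ u) =
      θ (TensorProduct.map (op A σ) (op B σ) u) := by
    intro u
    have h4 := kun_op h1 h2 σ 1 u
    rw [pow_one, pow_one] at h4
    exact h4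
  have h4 : θ.symm z ∈ Module.End.maxGenEigenspace
      (TensorProduct.map (op A σ) (op B σ)) γ := by
    refine map_gen (F := op (⟨A.X.prod B.X, υ⟩ : GVar W Γ) σ)
      (show W.H (⟨A.X.prod B.X, υ⟩ : GVar W Γ).X →ₗ[W.K] (W.H A.X ⊗[W.K] W.H B.X) from
        θ.symm.toLinearMap) ?_ hz
    intro x
    apply θ.injective
    show θ _ = θ (θ.symm _)
    rw [LinearEquiv.apply_symm_apply, ← h3]
    show op (⟨A.X.prod B.X, υ⟩ : GVar W Γ) σ (θ (θ.symm x)) = _
    rw [LinearEquiv.apply_symm_apply]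
  have h5 := tensor_decomp hC hspan γ h4
  have h6 : ∀ u ∈ Submodule.span W.K {t | ∃ a α b β, (a, α) ∈ C ∧
      b ∈ (op B σ).maxGenEigenspace β ∧ α * β = γ ∧ t = a ⊗ₜ[W.K] b}, θ u ∈ M := by
    intro u hu
    induction hu using Submodule.span_induction with
    | mem u hu =>
      obtain ⟨a, α, b, β, ha, hb, hab, rfl⟩ := hu
      exact h a α b β ha hb hab
    | zero => rw [map_zero]; exact Submodule.zero_mem _
    | add x y _ _ hx hy => rw [map_add]; exact Submodule.add_mem _ hx hy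
    | smul r x _ hx => rw [map_smul]; exact Submodule.smul_mem _ _ hx
  have h7 := h6 _ h5
  rwa [LinearEquiv.apply_symm_apply] at h7

/-- the algebraic system -/
structure GSys (q : ℕ) (χ : Γ →* W.Kˣ) (G : Set (GVar W Γ)) {ι : Type} (X : ι → GVar W Γ)
    (Z : GVar W Γ) (σ : Γ) (S : ι → Set W.K) : Prop where
  gal : GaloisClass χ G
  mem : ∀ i, X i ∈ G
  memZ : Z ∈ G
  cyc : ((χ σ : W.Kˣ) : W.K) = (q : W.K)
  cv : ∀ i, Cv (X i) σ (S i)
  point : ∀ i, ∃ a ∈ algClasses W (X i).X (X i).X.dim, W.tr (X i).X a = 1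
  ar : ∀ (I : Finset ι) (α : ι → W.K), (∀ i ∈ I, α i ∈ S i) → ∀ β, (op Z σ).HasEigenvalue β →
    ∀ ν : ℕ, IsIntegral ℤ ((∏ i ∈ I, α i) * β / (q : W.K) ^ ν) →
      IsIntegral ℤ (β / (q : W.K) ^ ν)

variable {q : ℕ} {G : Set (GVar W Γ)} {ι : Type} {X : ι → GVar W Γ} {Z : GVar W Γ} {σ : Γ}
  {S : ι → Set W.K}

omit [IsAlgClosed W.K] in
theorem prod_mem_G (h : GSys q χ G X Z σ S) {L : List ι} {V : GVar W Γ}
    (hV : IsProductOver G X Z L V) : V ∈ G := by
  induction hV with
  | base => exact h.memZ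
  | step i _ hC _ _ => exact hC

/-- from `Z` to the products -/
theorem up (h : GSys q χ G X Z σ S) (hZ : GT' q Z σ) {L : List ι} {V : GVar W Γ}
    (hV : IsProductOver G X Z L V) (hL : L.Nodup) :
    ∀ (I : Finset ι), (∀ i ∈ I, i ∉ L) → ∀ α : ι → W.K, (∀ i ∈ I, α i ∈ S i) →
      ∀ (ν : ℕ) (β : W.K), IsIntegral ℤ ((∏ i ∈ I, α i) * β / (q : W.K) ^ ν) →
        (op V σ).maxGenEigenspace β ≤ coniveau W V.X ν := by
  classical
  induction hV with
  | base =>
    intro I _ α hα ν β hβ
    by_cases h0 : (op Z σ).maxGenEigenspace β = ⊥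
    · rw [h0]; exact bot_le
    · exact hZ ν β (h.ar I α hα β (eig_of_maxGen _ h0) ν hβ)
  | @step L B C i hB hC hP ih =>
    rw [List.nodup_cons] at hL
    intro I hI α hα ν γ hγ
    cases hP with
    | mk υ h1 h2 =>
    refine prod_gen h1 h2 (C := pieces χ (X i) σ (S i)) (fun a α ha => ha.1)
      (pieces_span (h.gal.galois _ (h.mem i)) (h.cv i)) ?_
    intro a α' b β ha hb hab
    rcases ha.2 with ⟨j, haj, m, hm, hαm⟩ | haS
    · -- the algebraic part
      have h3 : ∀ ν' : ℕ, b ∈ coniveau W B.X ν' → ν ≤ ν' + j →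
          ext W a b ∈ coniveau W ((X i).X.prod B.X) ν := by
        intro ν' hb' hν
        have haj' : a ∈ Submodule.span W.K (algClasses W (X i).X j) := haj
        clear ha haj hb hαm
        induction haj' using Submodule.span_induction with
        | mem a ha' => exact con_map (isCorr_inj ha') (ν := ν') (by push_cast; omega) hb'
        | zero =>
          show W.map (fst (X i).X B.X) 0 * _ ∈ _
          rw [map_zero, zero_mul]; exact Submodule.zero_mem _
        | add x y _ _ hx hy =>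
          show W.map (fst (X i).X B.X) (x + y) * _ ∈ _
          rw [map_add, add_mul]; exact Submodule.add_mem _ hx hy
        | smul r x _ hx =>
          show W.map (fst (X i).X B.X) (r • x) * _ ∈ _
          rw [map_smul, smul_mul_assoc]; exact Submodule.smul_mem _ _ hx
      by_cases hj : j ≤ ν
      · refine h3 (ν - j) ?_ (by omega)
        refine ih hL.2 I (fun i' hi' h0 => hI i' hi' (List.mem_cons_of_mem _ h0)) α hα (ν - j) β
          ?_ hb
        refine IsIntegral.of_pow hm ?_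
        have h4 := hγ.pow m
        have hq0 : (q : W.K) ≠ 0 := by rw [← h.cyc]; exact Units.ne_zero _
        have hαm' : α' ^ m = (q : W.K) ^ (m * j) := by rw [← h.cyc]; exact hαm
        have h5 : ((∏ i ∈ I, α i) * γ / (q : W.K) ^ ν) ^ m =
            ((∏ i ∈ I, α i) * β / (q : W.K) ^ (ν - j)) ^ m := by
          rw [← hab, div_pow, div_pow, mul_pow, mul_pow, mul_pow, hαm']
          have h6 : ((q : W.K) ^ ν) ^ m = (q : W.K) ^ (m * j) * ((q : W.K) ^ (ν - j)) ^ m := by
            rw [← pow_mul, ← pow_mul, ← pow_add]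
            congr 1
            obtain ⟨t, rfl⟩ := Nat.exists_eq_add_of_le hj
            rw [Nat.add_sub_cancel_left]
            ring
          rw [h6]
          field_simp
        rw [← h5]
        exact h4
      · exact h3 0 (by rw [con_zero]; trivial) (by omega)
    · -- the part without invariants
      refine con_ext a ?_
      have hiI : i ∉ I := fun h0 => hI i h0 List.mem_cons_self
      refine ih hL.2 (insert i I) ?_ (Function.update α i α') ?_ ν β ?_ hb
      · intro i' hi'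
        rcases Finset.mem_insert.1 hi' with rfl | hi'
        · exact hL.1
        · exact fun h0 => hI i' hi' (List.mem_cons_of_mem _ h0)
      · intro i' hi'
        rcases Finset.mem_insert.1 hi' with rfl | hi'
        · rw [Function.update_self]; exact haS
        · rw [Function.update_of_ne (ne_of_mem_of_not_mem hi' hiI)]
          exact hα i' hi'
      · rw [Finset.prod_insert hiI, Function.update_self,
          Finset.prod_congr rfl fun i' hi' =>
            Function.update_of_ne (ne_of_mem_of_not_mem hi' hiI) α' α]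
        have h6 : α' * (∏ i ∈ I, α i) * β = (∏ i ∈ I, α i) * γ := by
          have h7 : α' * β = γ := hab
          rw [← h7]; ring
        rw [h6]
        exact hγ

omit [IsAlgClosed W.K] in
/-- from the products to `Z` -/
theorem down (h : GSys q χ G X Z σ S) {L : List ι} {V : GVar W Γ}
    (hV : IsProductOver G X Z L V) (hGV : GT' q V σ) : GT' q Z σ := by
  induction hV with
  | base => exact hGV
  | @step L B C i hB hC hP ih =>
    apply ih
    cases hP with
    | mk υ h1 h2 =>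
    intro ν β hβ b hb
    obtain ⟨a, ha, ha1⟩ := h.point i
    have h3 : W.map (snd (X i).X B.X) b ∈
        (op (⟨(X i).X.prod B.X, υ⟩ : GVar W Γ) σ).maxGenEigenspace β :=
      map_gen (F := op B σ) (W.map (snd (X i).X B.X)).toLinearMap (fun x => h2 σ x) hb
    have h4 := con_map (isCorr_cof ha) (ν' := ν) (by omega) (hGV ν β hβ h3)
    have h5 : cof W (X i).X B.X a (W.map (snd (X i).X B.X) b) = b := by
      show W.push (snd (X i).X B.X) (W.map (fst (X i).X B.X) a * W.map (snd (X i).X B.X) b) = b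
      rw [W.push_snd, ha1, one_smul]
    rw [h5] at h4
    exact h4

/-- **the main steps** -/
theorem main_iff (h : GSys q χ G X Z σ S) {L : List ι} {V : GVar W Γ}
    (hV : IsProductOver G X Z L V) (hL : L.Nodup) :
    GeneralizedTate q V σ ↔ GeneralizedTate q Z σ := by
  rw [gt_iff (h.gal.galois _ (prod_mem_G h hV)), gt_iff (h.gal.galois _ h.memZ)]
  refine ⟨down h hV, fun hZ ν β hβ => up h hZ hV hL ∅ (fun i hi => absurd hi (Finset.notMem_empty i))
    (fun _ => 0) (fun i hi => absurd hi (Finset.notMem_empty i)) ν β ?_⟩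
  rw [Finset.prod_empty, one_mul]
  exact hβ

end Pool.Agent.U222.GT
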