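import Pool.Agent.U222.GT.Cos
import Pool.Agent.U222.SL.Prime

/-!
# An automorphism which fixes a given number and makes all characters small
-/

set_option autoImplicit false

namespace Pool.Agent.U222.GT

open Finset Polynomial Pool.Agent.N876.TC Pool.Agent.U222.SL

section

variable {ι : Type} [Fintype ι] [DecidableEq ι] {d : ι → ℕ} [∀ i, Fact (d i).Prime] {ζ : ι → AA}
  (hζ : ∀ i, IsPrimitiveRoot (ζ i) (d i))

/-- the action on the roots of unity -/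
noncomputable def chr : (AA ≃ₐ[ℚ] AA) →* ∀ i, (ZMod (d i))ˣ :=
  Pi.monoidHom fun i => (hζ i).autToPow ℚ

theorem chr_spec (σ : AA ≃ₐ[ℚ] AA) (i : ι) :
    σ (ζ i) = ζ i ^ ((chr hζ σ i : (ZMod (d i))ˣ) : ZMod (d i)).val :=
  ((hζ i).autToPow_spec ℚ σ).symm

theorem chr_surj (hne : ∀ i i', i ≠ i' → d i ≠ d i') : Function.Surjective (chr hζ) := by
  intro t
  have hp : ∀ i, (d i).Prime := fun i => Fact.out
  have hN : 0 < ∏ i, d i := prod_pos fun i _ => (hp i).pos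
  have hco : ∀ i j, i ≠ j → (d i).Coprime (d j) := fun i j hij =>
    (Nat.coprime_primes (hp i) (hp j)).2 (hne i j hij)
  have hcop : ∀ i, (((t i : (ZMod (d i))ˣ) : ZMod (d i)).val).Coprime (d i) := fun i =>
    ZMod.val_coe_unit_coprime (t i)
  obtain ⟨v, hv1, hv2⟩ := exists_crt (fun i => (hp i).pos) hco
    (fun i => ((t i : (ZMod (d i))ˣ) : ZMod (d i)).val) hcop
  obtain ⟨ξ, hξ⟩ : ∃ ξ : AA, IsPrimitiveRoot ξ (∏ i, d i) := by
    have : NeZero (((∏ i, d i : ℕ)) : AA) := ⟨by exact_mod_cast hN.ne'⟩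
    exact HasEnoughRootsOfUnity.exists_primitiveRoot AA _
  obtain ⟨σ, hσ⟩ := exists_aut hN hξ hv1
  refine ⟨σ, ?_⟩
  funext i
  have : NeZero (∏ i, d i) := ⟨hN.ne'⟩
  obtain ⟨s, _, hs⟩ := hξ.eq_pow_of_pow_eq_one (ξ := ζ i) (by
    obtain ⟨w, hw⟩ := Finset.dvd_prod_of_mem d (mem_univ i)
    rw [hw, pow_mul, (hζ i).pow_eq_one, one_pow])
  have h1 : σ (ζ i) = ζ i ^ v := by
    rw [← hs, map_pow, hσ, ← pow_mul, ← pow_mul, mul_comm]
  rw [chr_spec hζ σ i] at h1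
  have h2 : ((chr hζ σ i : (ZMod (d i))ˣ) : ZMod (d i)).val ≡ v [MOD d i] := by
    rw [pow_eq_pow_mod v (hζ i).pow_eq_one] at h1
    have h3 := (hζ i).pow_inj (ZMod.val_lt _) (Nat.mod_lt _ (hp i).pos) h1
    rw [h3]
    exact Nat.mod_modEq _ _
  apply Units.ext
  apply ZMod.val_injective
  have h3 : ((chr hζ σ i : (ZMod (d i))ˣ) : ZMod (d i)).val ≡
      ((t i : (ZMod (d i))ˣ) : ZMod (d i)).val [MOD d i] := h2.trans (hv2 i)
  have h4 := h3
  unfold Nat.ModEq at h4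
  rwa [Nat.mod_eq_of_lt (ZMod.val_lt _), Nat.mod_eq_of_lt (ZMod.val_lt _)] at h4

include hζ in
/-- **the automorphism** -/
theorem exists_rho (hne : ∀ i i', i ≠ i' → d i ≠ d i') (a : ι → ℕ) (ha : ∀ i, 0 < a i) {m : ℕ}
    (hd : ∀ i, 4 * a i ^ 2 * (m + 1) ^ 2 ≤ d i) {β : AA} (hβ : (minpoly ℚ β).natDegree ≤ m)
    (j : ∀ i, (ZMod (d i))ˣ) :
    ∃ ρ : AA ≃ₐ[ℚ] AA, ρ β = β ∧ ∀ i, ∃ v r : ℕ, ρ (ζ i) = ζ i ^ v ∧ 0 < r ∧ a i * r < d i ∧
      (v : ZMod (d i)) * j i = r := by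
  have halg : Algebra.IsAlgebraic ℚ AA := algebraicClosure.isAlgebraic ℚ ℂ
  have hint : IsIntegral ℚ β := (halg.isAlgebraic β).isIntegral
  set St := MulAction.stabilizer (AA ≃ₐ[ℚ] AA) β with hSt
  have hfin : ((minpoly ℚ β).rootSet AA).Finite := (minpoly ℚ β).rootSet_finite AA
  have horb : MulAction.orbit (AA ≃ₐ[ℚ] AA) β ⊆ (minpoly ℚ β).rootSet AA := by
    rintro _ ⟨σ, rfl⟩
    refine mem_rootSet.2 ⟨minpoly.ne_zero hint, ?_⟩
    have h3 := Polynomial.aeval_algHom_apply ((σ : AA ≃ₐ[ℚ] AA) : AA →ₐ[ℚ] AA) β (minpoly ℚ β)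
    rw [minpoly.aeval, map_zero] at h3
    exact h3
  have hidx : St.index ≤ m := by
    rw [hSt, MulAction.index_stabilizer]
    refine (Set.ncard_le_ncard horb hfin).trans (le_trans ?_ hβ)
    rw [Polynomial.rootSet_def, Set.ncard_coe_finset]
    exact (Multiset.toFinset_card_le _).trans ((Polynomial.card_roots' _).trans
      (Polynomial.natDegree_map_le))
  have hidx0 : St.index ≠ 0 := by
    rw [hSt, MulAction.index_stabilizer]
    have h1 : (MulAction.orbit (AA ≃ₐ[ℚ] AA) β).Nonempty := ⟨β, MulAction.mem_orbit_self β⟩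
    exact (Set.ncard_pos (hfin.subset horb)).2 h1 |>.ne'
  have hH : (St.map (chr hζ)).index ≤ m :=
    (Nat.le_of_dvd (Nat.pos_of_ne_zero hidx0) (St.index_map_dvd (chr_surj hζ hne))).trans hidx
  obtain ⟨u, hu, hsm⟩ := exists_small a ha hd _ hH j
  obtain ⟨ρ, hρ, rfl⟩ := hu
  refine ⟨ρ, hρ, fun i => ⟨((chr hζ ρ i : (ZMod (d i))ˣ) : ZMod (d i)).val,
    ((chr hζ ρ i * j i : (ZMod (d i))ˣ) : ZMod (d i)).val, chr_spec hζ ρ i, (hsm i).1, (hsm i).2,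
    ?_⟩⟩
  rw [ZMod.natCast_zmod_val, ZMod.natCast_zmod_val, Units.val_mul]

end

end Pool.Agent.U222.GT
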